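import Pool.Agent.Y744.PCR.Fin

/-!
# Counting functions with a continuous density
-/

set_option autoImplicit false

namespace Q172.DetK

open Filter Topology MeasureTheory Real
open Pool.Agent.Y744

/-- the primitive of the density -/
noncomputable def rp (ρ : ℝ → ℝ) (x : ℝ) : ℝ := ∫ u in (0 : ℝ)..x, ρ u

/-- the counting function of the absolute values -/
noncomputable def AR (ρ : ℝ → ℝ) (x : ℝ) : ℝ := if x < 0 then 0 else 1 + 2 * rp ρ x

variable {ρ : ℝ → ℝ} (hc : Continuous ρ) (h0 : ∀ y, 0 ≤ ρ y) (h2 : ∀ y, ρ y ≤ 2)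

include hc in
lemma rp_deriv (x : ℝ) : HasDerivAt (rp ρ) (ρ x) x :=
  intervalIntegral.integral_hasDerivAt_right (hc.intervalIntegrable _ _)
    (hc.stronglyMeasurableAtFilter _ _) hc.continuousAt

lemma rp_zero : rp ρ 0 = 0 := by unfold rp; simp

include hc h0 in
lemma rp_mono : Monotone (rp ρ) := by
  intro a b hab
  have h1 : rp ρ b - rp ρ a = ∫ u in a..b, ρ u := by
    unfold rp
    exact intervalIntegral.integral_interval_sub_left (hc.intervalIntegrable _ _)
      (hc.intervalIntegrable _ _)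
  have h3 : 0 ≤ ∫ u in a..b, ρ u := intervalIntegral.integral_nonneg hab fun u _ => h0 u
  linarith

include hc h0 in
lemma rp_nonneg {x : ℝ} (hx : 0 ≤ x) : 0 ≤ rp ρ x := by
  have := rp_mono hc h0 hx
  rwa [rp_zero] at this

include hc h2 in
lemma rp_le {x : ℝ} (hx : 0 ≤ x) : rp ρ x ≤ 2 * x := by
  unfold rp
  have h1 : ∫ u in (0 : ℝ)..x, ρ u ≤ ∫ _ in (0 : ℝ)..x, (2 : ℝ) :=
    intervalIntegral.integral_mono_on hx (hc.intervalIntegrable _ _)
      (continuous_const.intervalIntegrable _ _) fun u _ => h2 u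
  rw [intervalIntegral.integral_const, sub_zero, smul_eq_mul] at h1
  linarith

include hc h0 in
lemma AR_mono : Monotone (AR ρ) := by
  intro a b hab
  unfold AR
  by_cases hb : b < 0
  · rw [if_pos hb, if_pos (by linarith)]
  · rw [if_neg hb]
    by_cases ha : a < 0
    · rw [if_pos ha]
      have := rp_nonneg hc h0 (x := b) (by linarith)
      linarith
    · rw [if_neg ha]
      have := rp_mono hc h0 hab
      linarith

include hc h0 h2 in
lemma AR_bound (x : ℝ) : |AR ρ x| ≤ 4 * (1 + x ^ 2) := by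
  unfold AR
  by_cases hx : x < 0
  · rw [if_pos hx, abs_zero]
    positivity
  · rw [if_neg hx]
    have h1 := rp_nonneg hc h0 (x := x) (by linarith)
    have h3 := rp_le hc h2 (x := x) (by linarith)
    rw [abs_of_nonneg (by linarith)]
    nlinarith [sq_nonneg (x - 1)]

include hc h0 h2 in
/-- the integral of a counting function with a density -/
lemma AR_int (he : ∀ y, ρ (-y) = ρ y) {κ : ℝ} {K : ℝ → ℝ} {h : ℝ} (hK : TK κ K) (hh : 0 < h) :
    ∫ y, AR ρ y * (ct K (y + h) - ct K (y - h)) = -(fav K h 0 + ∫ y, fav K h y * ρ y) := by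
  obtain ⟨D, hD0, hD⟩ := fav_decay hK hh
  have hfc : Continuous (fav K h) := continuous_iff_continuousAt.2 fun y =>
    (fav_deriv hK h y).continuousAt
  have hwc : Continuous fun y => ct K (y + h) - ct K (y - h) :=
    (hK.ct_cont.comp (by fun_prop)).sub (hK.ct_cont.comp (by fun_prop))
  -- integrability
  have i1 : Integrable fun y => fav K h y * ρ y := by
    refine (integrable_inv_one_add_sq.const_mul (D * 2)).mono'
      (hfc.mul hc).aestronglyMeasurable (Eventually.of_forall fun y => ?_)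
    rw [Real.norm_eq_abs, abs_mul, abs_of_nonneg (h0 y)]
    have h1 : (1 : ℝ) ≤ 1 + y ^ 2 := by nlinarith [sq_nonneg y]
    calc |fav K h y| * ρ y ≤ D / (1 + y ^ 2) ^ 2 * 2 :=
          mul_le_mul (hD y) (h2 y) (h0 y) (by positivity)
      _ = D * 2 * ((1 + y ^ 2) ^ 2)⁻¹ := by rw [div_eq_mul_inv]; ring
      _ ≤ D * 2 * (1 + y ^ 2)⁻¹ := by
          refine mul_le_mul_of_nonneg_left ?_ (by positivity)
          refine inv_anti₀ (by positivity) ?_
          nlinarith
  have hm : Measurable (AR ρ) := (AR_mono hc h0).measurable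
  have i2 : Integrable fun y => AR ρ y * (ct K (y + h) - ct K (y - h)) := by
    have := (test_int hK hm (AR_bound hc h0 h2) h).sub (test_int hK hm (AR_bound hc h0 h2) (-h))
    refine this.congr (Eventually.of_forall fun y => ?_)
    show AR ρ y * ct K (y + h) - AR ρ y * ct K (y + -h) = _
    rw [← sub_eq_add_neg]
    ring
  -- reduction to the half line
  have e1 : ∫ y, AR ρ y * (ct K (y + h) - ct K (y - h)) =
      ∫ y in Set.Ioi 0, (1 + 2 * rp ρ y) * (ct K (y + h) - ct K (y - h)) := by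
    rw [← integral_add_compl (measurableSet_Iic (a := (0 : ℝ))) i2]
    have h1 : ∫ y in Set.Iic (0 : ℝ), AR ρ y * (ct K (y + h) - ct K (y - h)) = 0 := by
      rw [integral_Iic_eq_integral_Iio]
      refine setIntegral_eq_zero_of_forall_eq_zero fun y hy => ?_
      have hy' : y < 0 := hy
      unfold AR
      rw [if_pos hy', zero_mul]
    rw [h1, zero_add, Set.compl_Iic]
    refine setIntegral_congr_fun measurableSet_Ioi fun y hy => ?_
    have hy' : (0 : ℝ) < y := hy
    show AR ρ y * _ = _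
    unfold AR
    rw [if_neg (by linarith)]
  set G : ℝ → ℝ := fun y => (1 + 2 * rp ρ y) * fav K h y with hG
  have hGd : ∀ y, HasDerivAt G (2 * ρ y * fav K h y +
      (1 + 2 * rp ρ y) * (ct K (y + h) - ct K (y - h))) y := by
    intro y
    have h1 : HasDerivAt (fun y => 1 + 2 * rp ρ y) (2 * ρ y) y :=
      ((rp_deriv hc y).const_mul 2).const_add 1
    exact h1.mul (fav_deriv hK h y)
  have j1 : IntegrableOn (fun y => 2 * ρ y * fav K h y) (Set.Ioi 0) := by
    have := (i1.const_mul 2).integrableOn (s := Set.Ioi (0 : ℝ))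
    refine this.congr_fun (fun y _ => ?_) measurableSet_Ioi
    show 2 * (fav K h y * ρ y) = _
    ring
  have j2 : IntegrableOn (fun y => (1 + 2 * rp ρ y) * (ct K (y + h) - ct K (y - h)))
      (Set.Ioi 0) := by
    refine (i2.integrableOn (s := Set.Ioi (0 : ℝ))).congr_fun (fun y hy => ?_) measurableSet_Ioi
    have hy' : (0 : ℝ) < y := hy
    show AR ρ y * _ = _
    unfold AR
    rw [if_neg (by linarith)]
  have hGt : Tendsto G atTop (𝓝 0) := by
    have h1 : Tendsto (fun y : ℝ => 5 * D * y⁻¹) atTop (𝓝 (5 * D * 0)) :=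
      tendsto_inv_atTop_zero.const_mul (5 * D)
    rw [mul_zero] at h1
    refine squeeze_zero_norm' ?_ h1
    filter_upwards [eventually_ge_atTop (1 : ℝ)] with y hy
    rw [Real.norm_eq_abs, hG]
    show |(1 + 2 * rp ρ y) * fav K h y| ≤ _
    have h3 := rp_nonneg hc h0 (x := y) (by linarith)
    have h4 := rp_le hc h2 (x := y) (by linarith)
    rw [abs_mul, abs_of_nonneg (by linarith)]
    have hy0 : 0 < y := by linarith
    have h5 : D / (1 + y ^ 2) ^ 2 ≤ D * (y⁻¹ * y⁻¹) := by
      rw [div_eq_mul_inv, ← mul_inv]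
      refine mul_le_mul_of_nonneg_left ?_ hD0
      refine inv_anti₀ (by positivity) ?_
      nlinarith [sq_nonneg y, sq_nonneg (y ^ 2)]
    calc (1 + 2 * rp ρ y) * |fav K h y| ≤ (5 * y) * (D * (y⁻¹ * y⁻¹)) := by
          refine mul_le_mul (by linarith) ((hD y).trans h5) (abs_nonneg _) (by positivity)
      _ = 5 * D * y⁻¹ := by field_simp
  have key := integral_Ioi_of_hasDerivAt_of_tendsto' (a := 0) (fun y _ => hGd y) (j1.add j2) hGt
  rw [integral_add j1 j2] at key
  have hG0 : G 0 = fav K h 0 := by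
    simp only [hG, rp_zero]
    ring
  rw [hG0] at key
  -- evenness
  have e2 : ∫ y in Set.Ioi (0 : ℝ), 2 * ρ y * fav K h y = ∫ y, fav K h y * ρ y := by
    have h1 : ∫ y in Set.Ioi (0 : ℝ), 2 * ρ y * fav K h y =
        2 * ∫ y in Set.Ioi (0 : ℝ), fav K h y * ρ y := by
      rw [← integral_const_mul]
      refine integral_congr_ae (Eventually.of_forall fun y => ?_)
      show 2 * ρ y * fav K h y = _
      ring
    have h2 := integral_comp_abs (f := fun y => fav K h y * ρ y)
    have h3 : ∫ y : ℝ, (fun y => fav K h y * ρ y) |y| = ∫ y, fav K h y * ρ y := by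
      refine integral_congr_ae (Eventually.of_forall fun y => ?_)
      show fav K h |y| * ρ |y| = fav K h y * ρ y
      rcases abs_cases y with ⟨hy, _⟩ | ⟨hy, _⟩
      · rw [hy]
      · rw [hy, fav_even, he]
    rw [h1, ← h2, h3]
  rw [e1, ← e2]
  linarith

/-- a uniform bound for the averages -/
lemma fav_unif {κ : ℝ} {K : ℝ → ℝ} (hK : TK κ K) : ∃ D, 0 ≤ D ∧ ∀ h : ℝ, 0 < h → h ≤ 1 →
    ∀ y, |(2 * h)⁻¹ * fav K h y| ≤ D * (1 + y ^ 2)⁻¹ := by
  obtain ⟨D, hD0, hD⟩ := hK.decay 1
  refine ⟨D * 4, by positivity, fun h hh hh1 y => ?_⟩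
  have h1 : ∀ u ∈ Set.uIoc (y - h) (y + h), ‖ct K u‖ ≤ D * 4 * (1 + y ^ 2)⁻¹ := by
    intro u hu
    rw [Set.uIoc_of_le (by linarith)] at hu
    rw [Real.norm_eq_abs]
    refine (hD u).trans ?_
    rw [pow_one, div_eq_mul_inv, mul_assoc]
    refine mul_le_mul_of_nonneg_left ?_ hD0
    rw [← div_eq_mul_inv, inv_eq_one_div, div_le_div_iff₀ (by positivity) (by positivity), one_mul]
    have h3 := shift_ineq y (u - y)
    rw [add_sub_cancel] at h3
    have h4 : (u - y) ^ 2 ≤ 1 := by
      rw [← sq_abs (u - y)]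
      refine pow_le_one₀ (abs_nonneg _) ?_
      rw [abs_le]
      constructor <;> linarith [hu.1, hu.2]
    have h5 : 0 ≤ 1 + u ^ 2 := by positivity
    nlinarith
  have h3 := intervalIntegral.norm_integral_le_of_norm_le_const h1
  rw [Real.norm_eq_abs, show y + h - (y - h) = 2 * h by ring,
    abs_of_pos (by positivity : (0 : ℝ) < 2 * h)] at h3
  rw [abs_mul, abs_of_pos (by positivity : (0 : ℝ) < (2 * h)⁻¹), inv_mul_le_iff₀ (by positivity)]
  unfold fav
  linarith

/-- the averages converge -/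
lemma fav_tend {κ : ℝ} {K : ℝ → ℝ} (hK : TK κ K) (y : ℝ) :
    Tendsto (fun n : ℕ => (2 * (1 / ((n : ℝ) + 1)))⁻¹ * fav K (1 / ((n : ℝ) + 1)) y) atTop
      (𝓝 (ct K y)) := by
  rw [Metric.tendsto_nhds]
  intro ε hε
  obtain ⟨δ, hδ, hd⟩ := Metric.continuous_iff.1 hK.ct_cont y (ε / 2) (by positivity)
  have h1 : ∀ᶠ n : ℕ in atTop, 1 / ((n : ℝ) + 1) < δ :=
    (tendsto_order.1 tendsto_one_div_add_atTop_nhds_zero_nat).2 δ hδ
  filter_upwards [h1] with n hn
  set h : ℝ := 1 / ((n : ℝ) + 1) with hh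
  have hh0 : 0 < h := by positivity
  have h2 : ∀ u ∈ Set.uIoc (y - h) (y + h), ‖ct K u - ct K y‖ ≤ ε / 2 := by
    intro u hu
    rw [Set.uIoc_of_le (by linarith)] at hu
    have := hd u (by
      rw [Real.dist_eq, abs_lt]
      constructor <;> linarith [hu.1, hu.2])
    rw [Real.dist_eq] at this
    exact this.le
  have h3 := intervalIntegral.norm_integral_le_of_norm_le_const h2
  have h4 : ∫ u in (y - h)..(y + h), (ct K u - ct K y) = fav K h y - 2 * h * ct K y := by
    rw [intervalIntegral.integral_sub (hK.ct_cont.intervalIntegrable _ _)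
      (continuous_const.intervalIntegrable _ _), intervalIntegral.integral_const, smul_eq_mul]
    unfold fav
    ring
  rw [h4, Real.norm_eq_abs, show y + h - (y - h) = 2 * h by ring,
    abs_of_pos (by positivity : (0 : ℝ) < 2 * h)] at h3
  rw [Real.dist_eq]
  have e : (2 * h)⁻¹ * fav K h y - ct K y = (2 * h)⁻¹ * (fav K h y - 2 * h * ct K y) := by
    field_simp
  rw [e, abs_mul, abs_of_pos (by positivity : (0 : ℝ) < (2 * h)⁻¹)]
  have h5 : (2 * h)⁻¹ * |fav K h y - 2 * h * ct K y| ≤ (2 * h)⁻¹ * (ε / 2 * (2 * h)) :=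
    mul_le_mul_of_nonneg_left h3 (by positivity)
  have h6 : (2 * h)⁻¹ * (ε / 2 * (2 * h)) = ε / 2 := by field_simp
  linarith

include hc h0 h2 in
/-- densities with the same integrals against the averages -/
lemma test_eq {κ : ℝ} {K : ℝ → ℝ} (hK : TK κ K)
    (H : ∀ h : ℝ, 0 < h → ∫ y, fav K h y * ρ y = ∫ y, fav K h y * gd y) :
    ∫ y, ct K y * (ρ y - gd y) = 0 := by
  obtain ⟨D, hD0, hD⟩ := fav_unif hK
  have hfc : ∀ h, Continuous (fav K h) := fun h => continuous_iff_continuousAt.2 fun y =>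
    (fav_deriv hK h y).continuousAt
  have hdc : Continuous fun y => ρ y - gd y := hc.sub gd_cont
  have hdb : ∀ y, |ρ y - gd y| ≤ 2 := fun y => by
    rw [abs_le]
    constructor <;> linarith [h0 y, h2 y, gd_nonneg y, gd_le y]
  have hint : ∀ (h : ℝ), 0 < h → ∀ (f : ℝ → ℝ), Continuous f → (∀ y, |f y| ≤ 2) →
      Integrable fun y => fav K h y * f y := by
    intro h hh f hf hfb
    obtain ⟨D', hD0', hD'⟩ := fav_decay hK hh
    refine (integrable_inv_one_add_sq.const_mul (D' * 2)).mono'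
      ((hfc h).mul hf).aestronglyMeasurable (Eventually.of_forall fun y => ?_)
    rw [Real.norm_eq_abs, abs_mul]
    calc |fav K h y| * |f y| ≤ D' / (1 + y ^ 2) ^ 2 * 2 :=
          mul_le_mul (hD' y) (hfb y) (abs_nonneg _) (by positivity)
      _ = D' * 2 * ((1 + y ^ 2) ^ 2)⁻¹ := by rw [div_eq_mul_inv]; ring
      _ ≤ D' * 2 * (1 + y ^ 2)⁻¹ := by
          refine mul_le_mul_of_nonneg_left ?_ (by positivity)
          refine inv_anti₀ (by positivity) ?_
          nlinarith [sq_nonneg y, sq_nonneg (y ^ 2)]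
  have hz : ∀ n : ℕ, ∫ y, (2 * (1 / ((n : ℝ) + 1)))⁻¹ * fav K (1 / ((n : ℝ) + 1)) y *
      (ρ y - gd y) = 0 := by
    intro n
    set h : ℝ := 1 / ((n : ℝ) + 1) with hh
    have hh0 : 0 < h := by positivity
    have e : ∀ y, (2 * h)⁻¹ * fav K h y * (ρ y - gd y) =
        (2 * h)⁻¹ * (fav K h y * ρ y) - (2 * h)⁻¹ * (fav K h y * gd y) := fun y => by ring
    simp_rw [e]
    have i1 := hint h hh0 ρ hc fun y => by rw [abs_of_nonneg (h0 y)]; exact h2 y
    have i2 := hint h hh0 gd gd_cont fun y => by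
      rw [abs_of_nonneg (gd_nonneg y)]
      linarith [gd_le y]
    rw [integral_sub (i1.const_mul _) (i2.const_mul _), integral_const_mul, integral_const_mul,
      H h hh0, sub_self]
  have hlim : Tendsto (fun n : ℕ => ∫ y, (2 * (1 / ((n : ℝ) + 1)))⁻¹ *
      fav K (1 / ((n : ℝ) + 1)) y * (ρ y - gd y)) atTop (𝓝 (∫ y, ct K y * (ρ y - gd y))) := by
    refine tendsto_integral_of_dominated_convergence (fun y => D * (1 + y ^ 2)⁻¹ * 2)
      (fun n => ?_) ((integrable_inv_one_add_sq.const_mul D).mul_const 2)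
      (fun n => Eventually.of_forall fun y => ?_) (Eventually.of_forall fun y => ?_)
    · exact ((continuous_const.mul (hfc _)).mul hdc).aestronglyMeasurable
    · rw [Real.norm_eq_abs, abs_mul]
      have hn : (0 : ℝ) ≤ n := Nat.cast_nonneg n
      exact mul_le_mul (hD _ (by positivity) (by
        rw [div_le_one (by positivity)]
        linarith) y) (hdb y) (abs_nonneg _) (by positivity)
    · exact (fav_tend hK y).mul_const _
  have hz' : (fun n : ℕ => ∫ y, (2 * (1 / ((n : ℝ) + 1)))⁻¹ *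
      fav K (1 / ((n : ℝ) + 1)) y * (ρ y - gd y)) = fun _ => 0 := funext hz
  rw [hz'] at hlim
  exact (tendsto_nhds_unique hlim tendsto_const_nhds)

end Q172.DetK
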