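import Pool.Agent.Q172.DetK.Samp

/-!
# A Hermitian kernel with nonnegative determinants is positive definite
-/

set_option autoImplicit false

namespace Q172.DetK

open Matrix
open scoped ComplexConjugate ComplexOrder

noncomputable section

lemma quad_form {n : ℕ} {A : Matrix (Fin n) (Fin n) ℂ} (hA : A.IsHermitian) {i j : Fin n}
    (hij : i ≠ j) (α β : ℂ) (x : Fin n → ℂ)
    (hx : x = fun k => α * hA.eigenvectorBasis i k + β * hA.eigenvectorBasis j k) :
    (∑ k, ∑ l, conj (x k) * x l * A k l).re =
      ‖α‖ ^ 2 * hA.eigenvalues i + ‖β‖ ^ 2 * hA.eigenvalues j := by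
  obtain ⟨v, hv⟩ : ∃ v : Fin n → ℂ, v = fun k => hA.eigenvectorBasis i k := ⟨_, rfl⟩
  obtain ⟨w, hw⟩ : ∃ w : Fin n → ℂ, w = fun k => hA.eigenvectorBasis j k := ⟨_, rfl⟩
  have hAv : ∀ k, ∑ l, A k l * v l = hA.eigenvalues i * v k := by
    intro k
    have := congrFun (hA.mulVec_eigenvectorBasis i) k
    rw [hv]
    simpa [mulVec, dotProduct] using this
  have hAw : ∀ k, ∑ l, A k l * w l = hA.eigenvalues j * w k := by
    intro k
    have := congrFun (hA.mulVec_eigenvectorBasis j) k
    rw [hw]
    simpa [mulVec, dotProduct] using this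
  have ho := hA.eigenvectorBasis.orthonormal
  have hvv : ∑ k, conj (v k) * v k = 1 := by
    have := orthonormal_iff_ite.1 ho i i
    rw [if_pos rfl, EuclideanSpace.inner_eq_star_dotProduct] at this
    rw [hv, ← this]
    simp only [dotProduct, Pi.star_apply, RCLike.star_def]
    exact Finset.sum_congr rfl fun k _ => mul_comm _ _
  have hww : ∑ k, conj (w k) * w k = 1 := by
    have := orthonormal_iff_ite.1 ho j j
    rw [if_pos rfl, EuclideanSpace.inner_eq_star_dotProduct] at this
    rw [hw, ← this]
    simp only [dotProduct, Pi.star_apply, RCLike.star_def]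
    exact Finset.sum_congr rfl fun k _ => mul_comm _ _
  have hvw : ∑ k, conj (v k) * w k = 0 := by
    have := orthonormal_iff_ite.1 ho i j
    rw [if_neg hij, EuclideanSpace.inner_eq_star_dotProduct] at this
    rw [hw, hv, ← this]
    simp only [dotProduct, Pi.star_apply, RCLike.star_def]
    exact Finset.sum_congr rfl fun k _ => mul_comm _ _
  have hwv : ∑ k, conj (w k) * v k = 0 := by
    have := orthonormal_iff_ite.1 ho j i
    rw [if_neg hij.symm, EuclideanSpace.inner_eq_star_dotProduct] at this
    rw [hw, hv, ← this]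
    simp only [dotProduct, Pi.star_apply, RCLike.star_def]
    exact Finset.sum_congr rfl fun k _ => mul_comm _ _
  have hxk : ∀ k, x k = α * v k + β * w k := fun k => by rw [hx, hv, hw]
  have e1 : ∀ k, ∑ l, conj (x k) * x l * A k l =
      conj (x k) * (α * hA.eigenvalues i * v k + β * hA.eigenvalues j * w k) := by
    intro k
    have : ∑ l, conj (x k) * x l * A k l =
        conj (x k) * (α * ∑ l, A k l * v l + β * ∑ l, A k l * w l) := by
      rw [Finset.mul_sum, Finset.mul_sum, ← Finset.sum_add_distrib, Finset.mul_sum]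
      refine Finset.sum_congr rfl fun l _ => ?_
      rw [hxk l]
      ring
    rw [this, hAv, hAw]
    ring
  have e2 : ∑ k, ∑ l, conj (x k) * x l * A k l =
      ((‖α‖ ^ 2 * hA.eigenvalues i + ‖β‖ ^ 2 * hA.eigenvalues j : ℝ) : ℂ) := by
    simp only [e1]
    have e3 : ∀ k, conj (x k) * (α * hA.eigenvalues i * v k + β * hA.eigenvalues j * w k) =
        (α * conj α * hA.eigenvalues i) * (conj (v k) * v k) +
        (β * conj α * hA.eigenvalues j) * (conj (v k) * w k) +
        (α * conj β * hA.eigenvalues i) * (conj (w k) * v k) +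
        (β * conj β * hA.eigenvalues j) * (conj (w k) * w k) := by
      intro k
      rw [hxk, map_add, map_mul, map_mul]
      ring
    simp only [e3, Finset.sum_add_distrib, ← Finset.mul_sum, hvv, hvw, hwv, hww]
    rw [Complex.mul_conj', Complex.mul_conj']
    push_cast
    ring
  rw [e2, Complex.ofReal_re]

/-- nonnegative determinants imply positive definiteness -/
theorem psd_of_minors {K : ℝ → ℂ} (hc : ∀ x, K (-x) = conj (K x))
    (hdet : ∀ (n : ℕ) (u : Fin n → ℝ),
      0 ≤ (Matrix.det (Matrix.of fun i j => K (u i - u j))).re) : PD K := by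
  intro n
  induction n with
  | zero =>
    intro u c
    simp
  | succ n ih =>
    intro u c
    obtain ⟨A, hAdef⟩ : ∃ A : Matrix (Fin (n + 1)) (Fin (n + 1)) ℂ,
      A = Matrix.of fun i j => K (u i - u j) := ⟨_, rfl⟩
    have hA : A.IsHermitian := by
      ext i j
      rw [hAdef, conjTranspose_apply, of_apply, of_apply, RCLike.star_def, ← hc, neg_sub]
    -- vectors with a vanishing coordinate
    have hsub : ∀ (k : Fin (n + 1)) (x : Fin (n + 1) → ℂ), x k = 0 →
        0 ≤ (∑ i, ∑ j, conj (x i) * x j * A i j).re := by
      intro k x hx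
      have h1 := ih (fun i => u (k.succAbove i)) (fun i => conj (x (k.succAbove i)))
      simp only [Complex.conj_conj] at h1
      have e : ∑ i, ∑ j, conj (x i) * x j * A i j =
          ∑ i : Fin n, ∑ j : Fin n, conj (x (k.succAbove i)) * x (k.succAbove j) *
            K (u (k.succAbove i) - u (k.succAbove j)) := by
        rw [Fin.sum_univ_succAbove _ k]
        have e1 : ∑ j, conj (x k) * x j * A k j = 0 := by
          refine Finset.sum_eq_zero fun j _ => ?_
          rw [hx]
          simp
        rw [e1, zero_add]
        refine Finset.sum_congr rfl fun i _ => ?_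
        rw [Fin.sum_univ_succAbove _ k, hx, mul_zero, zero_mul, zero_add, hAdef]
        rfl
      rw [e]
      exact h1
    have hpsd : A.PosSemidef := by
      rw [hA.posSemidef_iff_eigenvalues_nonneg]
      by_contra hcon
      have hcon' : ∃ i, hA.eigenvalues i < 0 := by
        by_contra h
        push Not at h
        exact hcon fun i => h i
      obtain ⟨i, hi⟩ := hcon'
      have hdet1 := hdet (n + 1) u
      rw [← hAdef, hA.det_eq_prod_eigenvalues] at hdet1
      have e1 : (∏ i, ((hA.eigenvalues i : ℝ) : ℂ)).re = ∏ i, hA.eigenvalues i := by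
        rw [← Complex.ofReal_prod, Complex.ofReal_re]
      have hdet2 : 0 ≤ ∏ i, hA.eigenvalues i := by
        rw [← e1]
        exact hdet1
      have hj : ∃ j, j ≠ i ∧ hA.eigenvalues j ≤ 0 := by
        by_contra h
        push Not at h
        have h2 : 0 < ∏ j ∈ Finset.univ.erase i, hA.eigenvalues j :=
          Finset.prod_pos fun j hj => h j (Finset.ne_of_mem_erase hj)
        rw [← Finset.mul_prod_erase _ _ (Finset.mem_univ i)] at hdet2
        nlinarith
      obtain ⟨j, hji, hj⟩ := hj
      have hzero : ∀ k, hA.eigenvectorBasis j k = 0 := by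
        intro k
        by_contra hk
        have h1 := quad_form hA hji.symm (hA.eigenvectorBasis j k) (-hA.eigenvectorBasis i k) _ rfl
        have h2 := hsub k (fun l => hA.eigenvectorBasis j k * hA.eigenvectorBasis i l +
          -hA.eigenvectorBasis i k * hA.eigenvectorBasis j l) (by ring)
        rw [h1] at h2
        have h3 : 0 < ‖hA.eigenvectorBasis j k‖ ^ 2 := by positivity
        have h4 : 0 ≤ ‖-hA.eigenvectorBasis i k‖ ^ 2 := by positivity
        nlinarith
      have h1 := hA.eigenvectorBasis.orthonormal.1 j
      have h2 : hA.eigenvectorBasis j = 0 := by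
        ext k
        exact hzero k
      rw [h2, norm_zero] at h1
      exact zero_ne_one h1
    have h1 := (posSemidef_iff_dotProduct_mulVec.1 hpsd).2 (fun i => conj (c i))
    have e : (star fun i => conj (c i)) ⬝ᵥ (A *ᵥ fun i => conj (c i)) =
        ∑ i, ∑ j, c i * conj (c j) * K (u i - u j) := by
      simp only [dotProduct, mulVec, Pi.star_apply, RCLike.star_def, Complex.conj_conj,
        Finset.mul_sum]
      refine Finset.sum_congr rfl fun i _ => Finset.sum_congr rfl fun j _ => ?_
      rw [hAdef, of_apply]
      ring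
    rw [e] at h1
    exact (Complex.le_def.1 h1).1

end

end Q172.DetK
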