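import Pool.Agent.Q172.DetK.Sinc

/-!
# A positive definite function with the modulus of the sine kernel is a modulated sine kernel
-/

set_option autoImplicit false

namespace Q172.DetK

open Filter Topology MeasureTheory Set
open scoped ComplexConjugate

noncomputable section

lemma sin_pi_pos {x : ℝ} (h0 : 0 < x) (h1 : x < 1) : 0 < Real.sin (Real.pi * x) := by
  have hpi := Real.pi_pos
  exact Real.sin_pos_of_pos_of_lt_pi (by positivity) (by nlinarith)

lemma S_pos {x : ℝ} (h : |x| < 1) : 0 < S x := by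
  have hpi := Real.pi_pos
  have key : ∀ y : ℝ, 0 < y → y < 1 → 0 < S y := fun y h0 h1 => by
    rw [S_of_ne h0.ne']
    exact div_pos (sin_pi_pos h0 h1) (by positivity)
  rw [abs_lt] at h
  rcases lt_trichotomy x 0 with h1 | h1 | h1
  · rw [← S_neg]
    exact key _ (by linarith) (by linarith)
  · rw [h1, S_zero]; norm_num
  · exact key _ h1 h.2

lemma sin_shift (x : ℝ) (n : ℤ) :
    Real.sin (Real.pi * (x - n)) = (-1) ^ n * Real.sin (Real.pi * x) := by
  rw [mul_sub, mul_comm Real.pi (n : ℝ)]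
  exact Real.sin_sub_int_mul_pi _ _

lemma sin_prod (u w : ℝ) (n : ℤ) : Real.sin (Real.pi * (u - n)) * Real.sin (Real.pi * (w - n)) =
    Real.sin (Real.pi * u) * Real.sin (Real.pi * w) := by
  rw [sin_shift, sin_shift]
  have h : ((-1 : ℝ) ^ n) * ((-1 : ℝ) ^ n) = 1 := by
    rw [← zpow_add₀ (by norm_num), Even.neg_one_zpow (Even.add_self n)]
  calc _ = (((-1 : ℝ) ^ n) * ((-1 : ℝ) ^ n)) * (Real.sin (Real.pi * u) * Real.sin (Real.pi * w)) := by
        ring
    _ = _ := by rw [h, one_mul]

lemma S_prod {u w : ℝ} {n : ℤ} (hu : u ≠ n) (hw : w ≠ n) : S (u - n) * S (w - n) =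
    Real.sin (Real.pi * u) * Real.sin (Real.pi * w) / (Real.pi ^ 2 * ((u - n) * (w - n))) := by
  rw [S_of_ne (sub_ne_zero.2 hu), S_of_ne (sub_ne_zero.2 hw), div_mul_div_comm, sin_prod]
  congr 1
  ring

lemma ne_int {u : ℝ} {j : ℤ} (h1 : (j : ℝ) < u) (h2 : u < j + 1) (n : ℤ) : u ≠ n := by
  rintro rfl
  have h3 : j < n := by exact_mod_cast h1
  have h4 : n < j + 1 := by exact_mod_cast h2
  omega

lemma sin_same {u w : ℝ} {j : ℤ} (hu : (j : ℝ) < u ∧ u < j + 1) (hw : (j : ℝ) < w ∧ w < j + 1) :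
    0 < Real.sin (Real.pi * u) * Real.sin (Real.pi * w) := by
  rw [← sin_prod u w j]
  exact mul_pos (sin_pi_pos (by linarith [hu.1]) (by linarith [hu.2]))
    (sin_pi_pos (by linarith [hw.1]) (by linarith [hw.2]))

lemma sin_adj {u w : ℝ} {j : ℤ} (hu : (j : ℝ) < u ∧ u < j + 1) (hw : (j : ℝ) - 1 < w ∧ w < j) :
    Real.sin (Real.pi * u) * Real.sin (Real.pi * w) < 0 := by
  rw [← sin_prod u w j]
  have h1 := sin_pi_pos (x := u - j) (by linarith [hu.1]) (by linarith [hu.2])
  have h2 := sin_pi_pos (x := -(w - j)) (by linarith [hw.2]) (by linarith [hw.1])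
  rw [mul_neg, Real.sin_neg] at h2
  nlinarith

/-- all the terms of the sampling formula are positive for two points of one unit interval -/
lemma S_same {u w : ℝ} {j : ℤ} (hu : (j : ℝ) < u ∧ u < j + 1) (hw : (j : ℝ) < w ∧ w < j + 1)
    (n : ℤ) : 0 < S (u - n) * S (w - n) := by
  have hpi := Real.pi_pos
  rw [S_prod (ne_int hu.1 hu.2 n) (ne_int hw.1 hw.2 n)]
  refine div_pos (sin_same hu hw) (mul_pos (by positivity) ?_)
  rcases le_or_gt n j with h | h
  · have h' : (n : ℝ) ≤ j := by exact_mod_cast h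
    exact mul_pos (by linarith [hu.1]) (by linarith [hw.1])
  · have h' : (j : ℝ) + 1 ≤ n := by exact_mod_cast h
    exact mul_pos_of_neg_of_neg (by linarith [hu.2]) (by linarith [hw.2])

/-- all the terms but one are negative for two points of adjacent unit intervals -/
lemma S_adj {u w : ℝ} {j : ℤ} (hu : (j : ℝ) < u ∧ u < j + 1) (hw : (j : ℝ) - 1 < w ∧ w < j)
    {n : ℤ} (hn : n ≠ j) : S (u - n) * S (w - n) < 0 := by
  have hpi := Real.pi_pos
  have hw' : ((j - 1 : ℤ) : ℝ) < w ∧ w < ((j - 1 : ℤ) : ℝ) + 1 := by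
    push_cast
    exact ⟨hw.1, by linarith [hw.2]⟩
  rw [S_prod (ne_int hu.1 hu.2 n) (ne_int hw'.1 hw'.2 n)]
  refine div_neg_of_neg_of_pos (sin_adj hu hw) (mul_pos (by positivity) ?_)
  rcases lt_or_gt_of_ne hn with h | h
  · have h' : (n : ℝ) + 1 ≤ j := by exact_mod_cast h
    exact mul_pos (by linarith [hu.1]) (by linarith [hw.1])
  · have h' : (j : ℝ) + 1 ≤ n := by exact_mod_cast h
    exact mul_pos_of_neg_of_neg (by linarith [hu.2]) (by linarith [hw.2])

lemma eq_of_re {a : ℂ} {r : ℝ} (h1 : ‖a‖ ≤ |r|) (h2 : a.re = r) : a = (r : ℂ) := by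
  have h3 : a.re ^ 2 + a.im ^ 2 = ‖a‖ ^ 2 := by
    rw [← Complex.normSq_eq_norm_sq, Complex.normSq_apply]; ring
  have h4 : ‖a‖ ^ 2 ≤ r ^ 2 := by
    rw [← sq_abs r]
    exact pow_le_pow_left₀ (norm_nonneg _) h1 2
  rw [h2] at h3
  have h5 : a.im = 0 := by nlinarith [sq_nonneg a.im]
  exact Complex.ext h2 (by rw [h5, Complex.ofReal_im])

lemma all_eq {a b : ℤ → ℝ} {s : ℝ} (ha : HasSum a s) (hb : HasSum b s) (h : ∀ n, a n ≤ b n)
    (n : ℤ) : a n = b n := by
  have h1 := hb.sub ha
  rw [sub_self] at h1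
  have h2 := (hasSum_zero_iff_of_nonneg (fun n => sub_nonneg.2 (h n))).1 h1
  have h3 := congrFun h2 n
  simp only [Pi.zero_apply] at h3
  linarith

section main

variable {K : ℝ → ℂ} (hK : PD K) (hcont : Continuous K) (h0 : K 0 = 1)
  (hc : ∀ x, K (-x) = conj (K x)) (hS : ∀ x, ‖K x‖ = |S x|)

include hK h0 hc hS

lemma samp (u w : ℝ) : HasSum (fun n : ℤ => K (u - n) * conj (K (w - n))) (K (u - w)) := by
  refine sampling hK h0 hc (fun n hn => ?_) (fun u => ?_) u w
  · rw [← norm_eq_zero, hS, S_int hn, abs_zero]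
  · have e : (fun n : ℤ => ‖K (u - n)‖ ^ 2) = fun n : ℤ => ‖((S (u - n) : ℝ) : ℂ)‖ ^ 2 := by
      funext n
      rw [hS, Complex.norm_real, Real.norm_eq_abs]
    rw [e]
    exact S_sq_sum u

lemma samp_re (u w : ℝ) {z : ℂ} (hz : K (u - w) * conj z = (S (u - w) : ℂ)) :
    HasSum (fun n : ℤ => (K (u - n) * conj (K (w - n)) * conj z).re) (S (u - w)) := by
  have h1 := (samp hK h0 hc hS u w).mul_right (conj z)
  rw [hz] at h1
  exact (Complex.hasSum_iff _ _).1 h1 |>.1

omit hK h0 hc in
lemma term_norm (u w : ℝ) (n : ℤ) {z : ℂ} (hz1 : ‖z‖ = 1) :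
    ‖K (u - n) * conj (K (w - n)) * conj z‖ = |S (u - n) * S (w - n)| := by
  rw [norm_mul, norm_mul, Complex.norm_conj, Complex.norm_conj, hz1, mul_one, hS, hS, abs_mul]

/-- two points of one unit interval -/
lemma same_z {u w : ℝ} {j : ℤ} (hu : (j : ℝ) < u ∧ u < j + 1) (hw : (j : ℝ) < w ∧ w < j + 1)
    {z : ℂ} (hz1 : ‖z‖ = 1) (hz : K (u - w) * conj z = (S (u - w) : ℂ)) :
    K u * conj (K w) = (S u * S w : ℝ) * z := by
  have h1 := all_eq (samp_re hK h0 hc hS u w hz) (S_sampling u w) (fun n => by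
    refine (Complex.re_le_norm _).trans ?_
    rw [term_norm hS u w n hz1, abs_of_pos (S_same hu hw n)]) 0
  have h2 := term_norm hS u w 0 hz1
  have h3 := eq_of_re h2.le h1
  rw [Int.cast_zero, sub_zero, sub_zero] at h3
  have h4 : conj z * z = 1 := by
    rw [mul_comm, Complex.mul_conj', hz1]
    norm_num
  rw [← h3, mul_assoc, h4, mul_one]

/-- two points of adjacent unit intervals -/
lemma adj_z {u w : ℝ} {j : ℤ} (hj : j ≠ 0) (hu : (j : ℝ) < u ∧ u < j + 1)
    (hw : (j : ℝ) - 1 < w ∧ w < j) {z : ℂ} (hz1 : ‖z‖ = 1)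
    (hz : K (u - w) * conj z = (S (u - w) : ℂ))
    (hloc : K (u - j) * conj (K (w - j)) * conj z = ((S (u - j) * S (w - j) : ℝ) : ℂ)) :
    K u * conj (K w) = (S u * S w : ℝ) * z := by
  have h1 := all_eq (S_sampling u w) (samp_re hK h0 hc hS u w hz) (fun n => by
    rcases eq_or_ne n j with rfl | hn
    · rw [hloc, Complex.ofReal_re]
    · have h5 := neg_le_of_abs_le (Complex.abs_re_le_norm
        (K (u - n) * conj (K (w - n)) * conj z))
      rw [term_norm hS u w n hz1, abs_of_neg (S_adj hu hw hn)] at h5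
      linarith) 0
  have h2 := term_norm hS u w 0 hz1
  have h3 := eq_of_re h2.le h1.symm
  rw [Int.cast_zero, sub_zero, sub_zero] at h3
  have h4 : conj z * z = 1 := by
    rw [mul_comm, Complex.mul_conj', hz1]
    norm_num
  rw [← h3, mul_assoc, h4, mul_one]

end main

/-- the phase -/
def s (K : ℝ → ℂ) (x : ℝ) : ℂ := K x / (S x : ℂ)

section phase

variable {K : ℝ → ℂ} (hK : PD K) (hcont : Continuous K) (h0 : K 0 = 1)
  (hc : ∀ x, K (-x) = conj (K x)) (hS : ∀ x, ‖K x‖ = |S x|)

include hS in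
lemma s_norm {x : ℝ} (hx : S x ≠ 0) : ‖s K x‖ = 1 := by
  unfold s
  rw [norm_div, hS, Complex.norm_real, Real.norm_eq_abs, div_self (abs_ne_zero.2 hx)]

include hS in
lemma s_mul (x : ℝ) : K x = s K x * S x := by
  unfold s
  rcases eq_or_ne (S x) 0 with h | h
  · rw [h, Complex.ofReal_zero, mul_zero, ← norm_eq_zero, hS, h, abs_zero]
  · rw [div_mul_cancel₀]
    exact_mod_cast h

include hc in
lemma s_neg (x : ℝ) : s K (-x) = conj (s K x) := by
  unfold s
  rw [hc, S_neg, map_div₀, Complex.conj_ofReal]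

include hS in
lemma z_conj {x : ℝ} (hx : S x ≠ 0) : K x * conj (s K x) = (S x : ℂ) := by
  have h1 : s K x * conj (s K x) = 1 := by
    rw [Complex.mul_conj', s_norm hS hx]
    norm_num
  nth_rewrite 1 [s_mul hS x]
  linear_combination (S x : ℂ) * h1

lemma S_ne {u : ℝ} {j : ℤ} (hu : (j : ℝ) < u ∧ u < j + 1) : S u ≠ 0 := by
  have := S_same hu hu 0
  rw [Int.cast_zero, sub_zero] at this
  intro h
  rw [h, mul_zero] at this
  exact lt_irrefl _ this

include hK h0 hc hS in
lemma s_same {u w : ℝ} {j : ℤ} (hu : (j : ℝ) < u ∧ u < j + 1) (hw : (j : ℝ) < w ∧ w < j + 1) :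
    s K u * conj (s K w) = s K (u - w) := by
  have h1 : S (u - w) ≠ 0 := (S_pos (by rw [abs_lt]; constructor <;> linarith [hu.1, hu.2, hw.1,
    hw.2])).ne'
  have h2 := same_z hK h0 hc hS hu hw (s_norm hS h1) (z_conj hS h1)
  have h3 := S_ne hu
  have h4 := S_ne hw
  unfold s at h2 ⊢
  rw [map_div₀, Complex.conj_ofReal, div_mul_div_comm, h2]
  have h3' : (S u : ℂ) ≠ 0 := by exact_mod_cast h3
  have h4' : (S w : ℂ) ≠ 0 := by exact_mod_cast h4
  push_cast
  field_simp

include hK hcont h0 hc hS in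
/-- the phase is exponential near zero -/
lemma s_local : ∃ θ : ℝ, ∀ x : ℝ, |x| < 1 → s K x = Complex.exp ((θ * x : ℝ) * Complex.I) := by
  have hs0 : s K 0 = 1 := by
    unfold s
    rw [h0, S_zero]
    simp
  have hsc : ContinuousOn (s K) (Ioo (-1) 1) := by
    intro x hx
    have hx' : (S x : ℂ) ≠ 0 := by
      exact_mod_cast (S_pos (abs_lt.2 hx)).ne'
    exact (hcont.continuousAt.div (Complex.continuous_ofReal.comp continuous_S).continuousAt
      hx').continuousWithinAt
  have hadd : ∀ x t : ℝ, 0 < x → 0 < t → x + t < 1 → s K (x + t) = s K x * s K t := by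
    intro x t hx ht hxt
    have h1 := s_same hK h0 hc hS (u := x + t) (w := x) (j := 0)
      ⟨by push_cast; linarith, by push_cast; linarith⟩ ⟨by push_cast; linarith, by push_cast; linarith⟩
    rw [add_sub_cancel_left] at h1
    have h2 : conj (s K x) * s K x = 1 := by
      rw [mul_comm, Complex.mul_conj', s_norm hS (S_pos (by rw [abs_lt]; constructor <;>
        linarith)).ne']
      norm_num
    rw [← h1]
    linear_combination (-s K (x + t)) * h2
  -- choice of `h`
  have hs0c : ContinuousAt (s K) 0 := hsc.continuousAt (Ioo_mem_nhds (by norm_num) (by norm_num))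
  obtain ⟨δ, hδ, hδ2⟩ := Metric.continuousAt_iff.1 hs0c (1 / 2) (by norm_num)
  obtain ⟨h, hh⟩ : ∃ h : ℝ, h = min (δ / 2) (1 / 2) := ⟨_, rfl⟩
  have hh0 : 0 < h := by rw [hh]; positivity
  have hh1 : h ≤ 1 / 2 := by rw [hh]; exact min_le_right _ _
  have hhδ : h < δ := by
    rw [hh]
    exact lt_of_le_of_lt (min_le_left _ _) (by linarith)
  have hint : ∀ a b : ℝ, -1 < a → a < 1 → -1 < b → b < 1 →
      IntervalIntegrable (s K) volume a b := by
    intro a b ha ha' hb hb'
    refine (hsc.mono fun y hy => ?_).intervalIntegrable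
    rw [mem_uIcc] at hy
    rcases hy with hy | hy
    · exact ⟨by linarith [hy.1], by linarith [hy.2]⟩
    · exact ⟨by linarith [hy.1], by linarith [hy.2]⟩
  obtain ⟨C, hC⟩ : ∃ C : ℂ, C = ∫ t in (0 : ℝ)..h, s K t := ⟨_, rfl⟩
  have hC0 : C ≠ 0 := by
    intro hcon
    have h1 : C - (h : ℂ) = ∫ t in (0 : ℝ)..h, (s K t - 1) := by
      rw [intervalIntegral.integral_sub (hint 0 h (by norm_num) (by norm_num) (by linarith)
        (by linarith)) (by simp), hC]
      simp
    have h2 : ‖C - (h : ℂ)‖ ≤ 1 / 2 * |h - 0| := by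
      rw [h1]
      refine intervalIntegral.norm_integral_le_of_norm_le_const fun t ht => ?_
      rw [uIoc_of_le hh0.le] at ht
      have h3 := hδ2 (x := t) (by
        rw [Real.dist_eq, sub_zero, abs_of_pos ht.1]
        linarith [ht.2])
      rw [hs0, dist_eq_norm] at h3
      exact h3.le
    rw [hcon, zero_sub, norm_neg, Complex.norm_real, Real.norm_eq_abs, sub_zero,
      abs_of_pos hh0] at h2
    linarith
  -- the differential equation
  have hF : ∀ x : ℝ, 0 < x → x < 1 - h → s K x * C = (∫ t in (0 : ℝ)..(x + h), s K t) -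
      ∫ t in (0 : ℝ)..x, s K t := by
    intro x hx hxh
    rw [intervalIntegral.integral_interval_sub_left
      (hint 0 (x + h) (by norm_num) (by norm_num) (by linarith) (by linarith))
      (hint 0 x (by norm_num) (by norm_num) (by linarith) (by linarith)), hC,
      ← intervalIntegral.integral_const_mul]
    have e : ∫ t in x..(x + h), s K t = ∫ t in (0 : ℝ)..h, s K (x + t) := by
      rw [intervalIntegral.integral_comp_add_left (fun t => s K t) x, add_zero]
    rw [e]
    refine intervalIntegral.integral_congr_ae ?_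
    refine Filter.Eventually.of_forall fun t ht => ?_
    rw [uIoc_of_le hh0.le] at ht
    exact (hadd x t hx ht.1 (by linarith [ht.2])).symm
  have hder : ∀ x : ℝ, 0 < x → x < 1 - h → HasDerivAt (s K) ((s K h - 1) / C * s K x) x := by
    intro x hx hxh
    have d1 : ∀ y : ℝ, -1 < y → y < 1 → HasDerivAt (fun y => ∫ t in (0 : ℝ)..y, s K t) (s K y) y := by
      intro y hy hy'
      exact intervalIntegral.integral_hasDerivAt_right
        (hint 0 y (by norm_num) (by norm_num) hy hy')
        (hsc.stronglyMeasurableAtFilter isOpen_Ioo y ⟨hy, hy'⟩)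
        (hsc.continuousAt (Ioo_mem_nhds hy hy'))
    have d2 : HasDerivAt (fun y => ∫ t in (0 : ℝ)..(y + h), s K t) (s K (x + h)) x := by
      have := (d1 (x + h) (by linarith) (by linarith)).comp_add_const x h
      exact this
    have d3 := ((d2.sub (d1 x (by linarith) (by linarith))).div_const C)
    have e1 : (s K (x + h) - s K x) / C = (s K h - 1) / C * s K x := by
      rw [hadd x h hx hh0 (by linarith)]
      ring
    rw [e1] at d3
    refine d3.congr_of_eventuallyEq ?_
    filter_upwards [Ioo_mem_nhds hx hxh] with y hy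
    simp only [Pi.sub_apply]
    rw [← hF y hy.1 hy.2, mul_div_cancel_right₀ _ hC0]
  obtain ⟨lam, hlam⟩ : ∃ lam : ℂ, lam = (s K h - 1) / C := ⟨_, rfl⟩
  have hexp : ∀ x : ℝ, HasDerivAt (fun x : ℝ => Complex.exp (-lam * x))
      (Complex.exp (-lam * x) * -lam) x := by
    intro x
    have h1 : HasDerivAt (fun x : ℝ => (-lam) * (x : ℂ)) (-lam) x := by
      have := (Complex.ofRealCLM.hasDerivAt (x := x)).const_mul (-lam)
      simpa using this
    exact h1.cexp
  have hconst : ∀ x : ℝ, 0 < x → x < 1 - h → HasDerivAt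
      (fun x : ℝ => s K x * Complex.exp (-lam * x)) 0 x := by
    intro x hx hxh
    have h1 := (hder x hx hxh).mul (hexp x)
    rw [← hlam] at h1
    have e : lam * s K x * Complex.exp (-lam * x) + s K x * (Complex.exp (-lam * x) * -lam) = 0 := by
      ring
    rw [e] at h1
    exact h1
  have hlim : Tendsto (fun x : ℝ => s K x * Complex.exp (-lam * x)) (𝓝[>] 0) (𝓝 1) := by
    have h1 : ContinuousAt (fun x : ℝ => s K x * Complex.exp (-lam * x)) 0 :=
      hs0c.mul (hexp 0).continuousAt
    have h2 := h1.tendsto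
    simp only [hs0, Complex.ofReal_zero, mul_zero, Complex.exp_zero, mul_one] at h2
    exact h2.mono_left nhdsWithin_le_nhds
  have hone : ∀ x : ℝ, 0 < x → x < 1 - h → s K x * Complex.exp (-lam * x) = 1 := by
    intro x hx hxh
    have h1 : ∀ y ∈ Ioo (0 : ℝ) (1 - h), s K y * Complex.exp (-lam * y) =
        s K x * Complex.exp (-lam * x) := by
      intro y hy
      exact isOpen_Ioo.is_const_of_deriv_eq_zero isPreconnected_Ioo
        (fun y hy => (hconst y hy.1 hy.2).differentiableAt.differentiableWithinAt)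
        (fun y hy => (hconst y hy.1 hy.2).deriv) hy ⟨hx, hxh⟩
    have h2 : Tendsto (fun x : ℝ => s K x * Complex.exp (-lam * x)) (𝓝[>] 0)
        (𝓝 (s K x * Complex.exp (-lam * x))) := by
      refine tendsto_const_nhds.congr' ?_
      filter_upwards [Ioo_mem_nhdsGT (show (0 : ℝ) < 1 - h by linarith)] with y hy
      exact (h1 y hy).symm
    exact tendsto_nhds_unique h2 hlim
  have hsx : ∀ x : ℝ, 0 < x → x < 1 - h → s K x = Complex.exp (lam * x) := by
    intro x hx hxh
    have h1 := hone x hx hxh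
    have h2 : Complex.exp (-lam * x) * Complex.exp (lam * x) = 1 := by
      rw [← Complex.exp_add]
      simp
    linear_combination Complex.exp (lam * x) * h1 - s K x * h2
  have hre : lam.re = 0 := by
    have h1 := hsx (1 / 4) (by norm_num) (by linarith)
    have h2 := s_norm (K := K) hS (S_pos (x := 1 / 4) (by rw [abs_lt]; constructor <;> norm_num)).ne'
    rw [h1, Complex.norm_exp] at h2
    have h3 : (lam * ((1 / 4 : ℝ) : ℂ)).re = lam.re * (1 / 4) := by
      rw [Complex.re_mul_ofReal]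
    rw [h3] at h2
    have h4 := Real.exp_eq_one_iff _ |>.1 h2
    linarith
  have hpos : ∀ x : ℝ, 0 < x → x < 1 - h → s K x = Complex.exp ((lam.im * x : ℝ) * Complex.I) := by
    intro x hx hxh
    rw [hsx x hx hxh]
    congr 1
    apply Complex.ext <;> simp [hre]
  have hpos1 : ∀ x : ℝ, 0 < x → x < 1 → s K x = Complex.exp ((lam.im * x : ℝ) * Complex.I) := by
    intro x hx hx1
    have h1 := hadd (x / 2) (x / 2) (by linarith) (by linarith) (by linarith)
    rw [add_halves] at h1
    rw [h1, hpos (x / 2) (by linarith) (by linarith), ← Complex.exp_add]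
    congr 1
    push_cast
    ring
  refine ⟨lam.im, fun x hx => ?_⟩
  rw [abs_lt] at hx
  rcases lt_trichotomy x 0 with h1 | h1 | h1
  · have h2 := s_neg hc (-x)
    rw [neg_neg] at h2
    rw [h2, hpos1 (-x) (by linarith) (by linarith), ← Complex.exp_conj, map_mul, Complex.conj_I,
      Complex.conj_ofReal]
    congr 1
    push_cast
    ring
  · rw [h1, hs0]
    simp
  · exact hpos1 x h1 hx.2

include hK hcont h0 hc hS in
/-- **A positive definite function with the modulus of the sine kernel is a modulated sine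
kernel.** -/
theorem modulated : ∃ θ : ℝ, ∀ x : ℝ, K x = Complex.exp ((θ * x : ℝ) * Complex.I) * (S x : ℂ) := by
  obtain ⟨θ, hθ⟩ := s_local hK hcont h0 hc hS
  have hee : ∀ a b : ℝ, Complex.exp ((a : ℂ) * Complex.I) * Complex.exp ((b : ℂ) * Complex.I) =
      Complex.exp (((a + b : ℝ) : ℂ) * Complex.I) := fun a b => by
    rw [← Complex.exp_add]
    congr 1
    push_cast
    ring
  have hec : ∀ a : ℝ, conj (Complex.exp ((a : ℂ) * Complex.I)) =
      Complex.exp (((-a : ℝ) : ℂ) * Complex.I) := fun a => by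
    rw [← Complex.exp_conj, map_mul, Complex.conj_I, Complex.conj_ofReal]
    congr 1
    push_cast
    ring
  -- within a unit interval
  have hsame : ∀ (j : ℤ) (u w : ℝ), ((j : ℝ) < u ∧ u < j + 1) → ((j : ℝ) < w ∧ w < j + 1) →
      s K w = Complex.exp ((θ * w : ℝ) * Complex.I) →
      s K u = Complex.exp ((θ * u : ℝ) * Complex.I) := by
    intro j u w hu hw h1
    have h2 := s_same hK h0 hc hS hu hw
    rw [hθ (u - w) (by rw [abs_lt]; constructor <;> linarith [hu.1, hu.2, hw.1, hw.2]), h1,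
      hec] at h2
    have h3 : Complex.exp (((-(θ * w) : ℝ) : ℂ) * Complex.I) *
        Complex.exp ((θ * w : ℝ) * Complex.I) = 1 := by
      rw [hee]
      simp
    have h4 : Complex.exp ((θ * (u - w) : ℝ) * Complex.I) *
        Complex.exp ((θ * w : ℝ) * Complex.I) = Complex.exp ((θ * u : ℝ) * Complex.I) := by
      rw [hee]
      congr 2
      ring
    rw [← h4, ← h2, mul_assoc, h3, mul_one]
  -- to the adjacent interval
  have hadj : ∀ (j : ℤ) (u w : ℝ), j ≠ 0 → ((j : ℝ) < u ∧ u < j + 1) →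
      ((j : ℝ) - 1 < w ∧ w < j) → u - w < 1 →
      s K w = Complex.exp ((θ * w : ℝ) * Complex.I) →
      s K u = Complex.exp ((θ * u : ℝ) * Complex.I) := by
    intro j u w hj hu hw huw h1
    have h5 : |u - w| < 1 := by rw [abs_lt]; constructor <;> linarith [hu.1, hw.2]
    have hz := z_conj hS (S_pos h5).ne'
    have hz1 := s_norm hS (S_pos h5).ne'
    rw [hθ _ h5] at hz hz1
    have hu1 : |u - j| < 1 := by rw [abs_lt]; constructor <;> linarith [hu.1, hu.2]
    have hw1 : |w - j| < 1 := by rw [abs_lt]; constructor <;> linarith [hw.1, hw.2]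
    have hloc : K (u - j) * conj (K (w - j)) * conj (Complex.exp ((θ * (u - w) : ℝ) * Complex.I)) =
        ((S (u - j) * S (w - j) : ℝ) : ℂ) := by
      rw [s_mul hS (u - j), s_mul hS (w - j), hθ _ hu1, hθ _ hw1, map_mul, hec, hec,
        Complex.conj_ofReal]
      have h6 : Complex.exp ((θ * (u - j) : ℝ) * Complex.I) *
          Complex.exp (((-(θ * (w - j)) : ℝ) : ℂ) * Complex.I) *
          Complex.exp (((-(θ * (u - w)) : ℝ) : ℂ) * Complex.I) = 1 := by
        rw [hee, hee]
        have : θ * (u - j) + -(θ * (w - j)) + -(θ * (u - w)) = 0 := by ring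
        rw [this]
        simp
      push_cast
      push_cast at h6
      linear_combination ((S (u - j) : ℂ) * (S (w - j) : ℂ)) * h6
    have h2 := adj_z hK h0 hc hS hj hu hw hz1 hz hloc
    have hw' : ((j - 1 : ℤ) : ℝ) < w ∧ w < ((j - 1 : ℤ) : ℝ) + 1 := by
      push_cast
      exact ⟨hw.1, by linarith [hw.2]⟩
    have h3 : (S u : ℂ) ≠ 0 := by exact_mod_cast S_ne hu
    have h4 : (S w : ℂ) ≠ 0 := by exact_mod_cast S_ne hw'
    have h6 : s K u * conj (s K w) = Complex.exp ((θ * (u - w) : ℝ) * Complex.I) := by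
      unfold s
      rw [map_div₀, Complex.conj_ofReal, div_mul_div_comm, h2]
      push_cast
      field_simp
    rw [h1, hec] at h6
    have h7 : Complex.exp (((-(θ * w) : ℝ) : ℂ) * Complex.I) *
        Complex.exp ((θ * w : ℝ) * Complex.I) = 1 := by
      rw [hee]
      simp
    have h8 : Complex.exp ((θ * (u - w) : ℝ) * Complex.I) *
        Complex.exp ((θ * w : ℝ) * Complex.I) = Complex.exp ((θ * u : ℝ) * Complex.I) := by
      rw [hee]
      congr 2
      ring
    rw [← h8, ← h6, mul_assoc, h7, mul_one]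
  -- all positive numbers which are not integers
  have hpos : ∀ (k : ℕ) (x : ℝ), (k : ℝ) < x → x < k + 1 →
      s K x = Complex.exp ((θ * x : ℝ) * Complex.I) := by
    intro k
    induction k with
    | zero =>
      intro x hx hx1
      exact hθ x (by rw [abs_lt]; push_cast at hx hx1; constructor <;> linarith)
    | succ k ih =>
      intro x hx hx1
      push_cast at hx hx1
      have h1 := ih ((k : ℝ) + 3 / 4) (by linarith) (by linarith)
      have h2 := hadj ((k : ℤ) + 1) ((k : ℝ) + 5 / 4) ((k : ℝ) + 3 / 4) (by omega)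
        ⟨by push_cast; linarith, by push_cast; linarith⟩
        ⟨by push_cast; linarith, by push_cast; linarith⟩ (by linarith) h1
      exact hsame ((k : ℤ) + 1) x ((k : ℝ) + 5 / 4)
        ⟨by push_cast; linarith, by push_cast; linarith⟩
        ⟨by push_cast; linarith, by push_cast; linarith⟩ h2
  have hall : ∀ x : ℝ, 0 ≤ x → K x = Complex.exp ((θ * x : ℝ) * Complex.I) * (S x : ℂ) := by
    intro x hx
    rcases eq_or_ne (⌊x⌋₊ : ℝ) x with h1 | h1
    · rcases Nat.eq_zero_or_pos ⌊x⌋₊ with h2 | h2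
      · rw [h2] at h1
        rw [← h1, Nat.cast_zero, h0, S_zero]
        simp
      · have h3 : S x = 0 := by
          rw [← h1]
          exact_mod_cast S_int (n := (⌊x⌋₊ : ℤ)) (by omega)
        rw [h3, Complex.ofReal_zero, mul_zero, ← norm_eq_zero, hS, h3, abs_zero]
    · rw [s_mul hS x, hpos ⌊x⌋₊ x (lt_of_le_of_ne (Nat.floor_le hx) h1) (Nat.lt_floor_add_one x)]
  refine ⟨θ, fun x => ?_⟩
  rcases le_total 0 x with hx | hx
  · exact hall x hx
  · have h1 := hall (-x) (by linarith)
    have h2 := hc (-x)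
    rw [neg_neg] at h2
    rw [h2, h1, map_mul, hec, S_neg, Complex.conj_ofReal]
    congr 3
    push_cast
    ring

end phase

end

end Q172.DetK
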