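import Pool.Agent.Q172.DetK.Rep2
import Pool.Agent.Q172.DetK.Minors
import Pool.Agent.Q172.DetK.Phase

/-!
# Determinantal correlation functions
-/

set_option autoImplicit false

namespace Q172.DetK

open Filter Topology MeasureTheory Matrix
open Pool.Agent.H506R3.Mag (PSDFun)
open scoped ComplexConjugate ComplexOrder

/-- the determinant `det K(u_i - u_j)` -/
noncomputable def D (K : ℝ → ℂ) {n : ℕ} (u : Fin n → ℝ) : ℝ :=
  (Matrix.det (Matrix.of fun i j => K (u i - u j))).re

/-- a continuous function with nonnegative integrals over boxes -/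
lemma nonneg_of_boxes {r : ℕ} {f : (Fin r → ℝ) → ℝ} (hf : Continuous f)
    (h : ∀ a b : Fin r → ℝ, (∀ i, a i < b i) → 0 ≤ ∫ u in Set.Icc a b, f u) (u : Fin r → ℝ) :
    0 ≤ f u := by
  by_contra hcon
  push Not at hcon
  have h1 : ∀ᶠ v in 𝓝 u, f v < f u / 2 := hf.continuousAt.eventually_lt_const (by linarith)
  obtain ⟨δ, hδ, h2⟩ := Metric.eventually_nhds_iff.1 h1
  have h3 := h (fun i => u i - δ / 2) (fun i => u i + δ / 2) (fun i => by linarith)
  have h4 : ∫ v in Set.Icc (fun i => u i - δ / 2) (fun i => u i + δ / 2), f v ≤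
      ∫ v in Set.Icc (fun i => u i - δ / 2) (fun i => u i + δ / 2), f u / 2 := by
    refine setIntegral_mono_on (hf.continuousOn.integrableOn_compact isCompact_Icc)
      (continuous_const.continuousOn.integrableOn_compact isCompact_Icc) measurableSet_Icc
      fun v hv => ?_
    refine (h2 ?_).le
    refine lt_of_le_of_lt ((dist_pi_le_iff (by positivity : 0 ≤ δ / 2)).2 fun i => ?_)
      (by linarith : δ / 2 < δ)
    rw [Real.dist_eq, abs_le]
    have := hv.1 i
    have := hv.2 i
    simp only at *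
    constructor <;> linarith
  rw [setIntegral_const] at h4
  have h5 : 0 < volume.real (Set.Icc (fun i => u i - δ / 2) (fun i => u i + δ / 2)) := by
    rw [measureReal_def, Real.volume_Icc_pi_toReal (fun i => by simp only; linarith)]
    refine Finset.prod_pos fun i _ => ?_
    linarith
  have h6 : volume.real (Set.Icc (fun i => u i - δ / 2) (fun i => u i + δ / 2)) • (f u / 2) < 0 := by
    rw [smul_eq_mul]
    exact mul_neg_of_pos_of_neg h5 (by linarith)
  linarith

lemma continuous_D {K : ℝ → ℂ} (hK : Continuous K) (n : ℕ) :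
    Continuous fun u : Fin n → ℝ => D K u := by
  unfold D
  refine Complex.continuous_re.comp (Continuous.matrix_det ?_)
  refine continuous_pi fun i => continuous_pi fun j => ?_
  show Continuous fun u : Fin n → ℝ => K (u i - u j)
  exact hK.comp (by fun_prop)

lemma continuous_snoc {r : ℕ} :
    Continuous fun u : Fin r → ℝ => (Fin.snoc u 0 : Fin (r + 1) → ℝ) := by
  refine continuous_pi fun i => ?_
  refine Fin.lastCases ?_ (fun i => ?_) i
  · simp only [Fin.snoc_last]
    exact continuous_const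
  · simp only [Fin.snoc_castSucc]
    exact continuous_apply i

lemma D_all {K : ℝ → ℂ} (h1 : K 0 = 1)
    (hdet : ∀ r : ℕ, 1 ≤ r → ∀ u : Fin r → ℝ, 0 ≤ D K (Fin.snoc u 0 : Fin (r + 1) → ℝ)) :
    ∀ (n : ℕ) (u : Fin n → ℝ), 0 ≤ (Matrix.det (Matrix.of fun i j => K (u i - u j))).re := by
  intro n u
  rcases n with _ | r
  · rw [Matrix.det_fin_zero]
    norm_num
  · rcases Nat.eq_zero_or_pos r with rfl | hr
    · rw [Matrix.det_fin_one]
      simp [h1]
    · have h2 := hdet r hr fun i => u i.castSucc - u (Fin.last r)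
      have e : (Matrix.of fun i j => K (u i - u j)) = Matrix.of fun i j : Fin (r + 1) =>
          K ((Fin.snoc (fun i => u i.castSucc - u (Fin.last r)) 0 : Fin (r + 1) → ℝ) i -
            (Fin.snoc (fun i => u i.castSucc - u (Fin.last r)) 0 : Fin (r + 1) → ℝ) j) := by
        have e1 : ∀ i : Fin (r + 1),
            (Fin.snoc (fun i => u i.castSucc - u (Fin.last r)) 0 : Fin (r + 1) → ℝ) i =
            u i - u (Fin.last r) := by
          intro i
          refine Fin.lastCases ?_ (fun i => ?_) i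
          · rw [Fin.snoc_last, sub_self]
          · rw [Fin.snoc_castSucc]
        ext i j
        rw [Matrix.of_apply, Matrix.of_apply, e1, e1]
        congr 1
        ring
      rw [e]
      exact h2

/-- the squared absolute values of a positive definite function are positive semidefinite -/
lemma psd_normSq {K : ℝ → ℂ} (hK : PD K) (hc : ∀ x, K (-x) = conj (K x)) :
    PSDFun (fun x => ‖K x‖ ^ 2) := by
  intro s w
  let A : Matrix s s ℂ := Matrix.of fun i j => K ((i : ℝ) - (j : ℝ))
  have hA : A.IsHermitian := by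
    ext i j
    rw [conjTranspose_apply]
    show star (K ((j : ℝ) - i)) = K ((i : ℝ) - j)
    rw [RCLike.star_def, ← hc, neg_sub]
  have hAp : A.PosSemidef := by
    refine Matrix.PosSemidef.of_dotProduct_mulVec_nonneg hA fun x => ?_
    have h1 := hK.fin (ι := s) (fun i => (i : ℝ)) (fun i => conj (x i))
    have e : star x ⬝ᵥ (A *ᵥ x) = ∑ i, ∑ j, conj (x i) * conj (conj (x j)) *
        K ((i : ℝ) - (j : ℝ)) := by
      unfold dotProduct mulVec dotProduct
      refine Finset.sum_congr rfl fun i _ => ?_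
      rw [Finset.mul_sum]
      refine Finset.sum_congr rfl fun j _ => ?_
      show star (x i) * (K ((i : ℝ) - j) * x j) = _
      rw [Complex.conj_conj, RCLike.star_def]
      ring
    rw [RCLike.nonneg_iff]
    refine ⟨?_, hA.im_star_dotProduct_mulVec_self x⟩
    rw [e]
    exact h1
  have hH := (hAp.hadamard hAp.transpose).dotProduct_mulVec_nonneg (fun i : s => (w i : ℂ))
  have h2 := (RCLike.nonneg_iff.1 hH).1
  have e : star (fun i : s => (w i : ℂ)) ⬝ᵥ ((A ⊙ Aᵀ) *ᵥ fun i : s => (w i : ℂ)) =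
      ((∑ x ∈ s, ∑ y ∈ s, w x * w y * ‖K (x - y)‖ ^ 2 : ℝ) : ℂ) := by
    unfold dotProduct mulVec dotProduct
    push_cast
    rw [← Finset.sum_coe_sort s (fun x => ∑ y ∈ s, (w x : ℂ) * w y * (‖K (x - y)‖ : ℂ) ^ 2)]
    refine Finset.sum_congr rfl fun i _ => ?_
    rw [← Finset.sum_coe_sort s (fun y => (w i : ℂ) * w y * (‖K (i - y)‖ : ℂ) ^ 2), Finset.mul_sum]
    refine Finset.sum_congr rfl fun j _ => ?_
    show star (w i : ℂ) * ((K ((i : ℝ) - j) * K ((j : ℝ) - i)) * (w j : ℂ)) = _
    have h3 : K ((j : ℝ) - i) = conj (K ((i : ℝ) - j)) := by rw [← hc, neg_sub]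
    rw [h3, Complex.mul_conj, Complex.normSq_eq_norm_sq, RCLike.star_def, Complex.conj_ofReal]
    push_cast
    ring
  rw [e] at h2
  exact h2

/-- a modulation does not change the determinants -/
lemma D_gauge {K : ℝ → ℂ} {θ : ℝ}
    (hK : ∀ x, K x = Complex.exp ((θ * x : ℝ) * Complex.I) * (S x : ℂ)) {n : ℕ} (u : Fin n → ℝ) :
    D K u = (Matrix.of fun i j => Real.sinc (Real.pi * (u i - u j)) : Matrix (Fin n) (Fin n) ℝ).det := by
  have e : (Matrix.of fun i j => K (u i - u j)) =
      Matrix.diagonal (fun i => Complex.exp ((θ * u i : ℝ) * Complex.I)) *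
      ((Matrix.of fun i j => Real.sinc (Real.pi * (u i - u j)) : Matrix (Fin n) (Fin n) ℝ).map
        Complex.ofRealHom) *
      Matrix.diagonal (fun i => Complex.exp ((-(θ * u i) : ℝ) * Complex.I)) := by
    ext i j
    rw [Matrix.mul_diagonal, Matrix.diagonal_mul, Matrix.of_apply, hK, Matrix.map_apply,
      Matrix.of_apply]
    have : Complex.exp ((θ * (u i - u j) : ℝ) * Complex.I) =
        Complex.exp ((θ * u i : ℝ) * Complex.I) * Complex.exp ((-(θ * u j) : ℝ) * Complex.I) := by
      rw [← Complex.exp_add]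
      congr 1
      push_cast
      ring
    rw [this]
    show _ * ((Real.sinc (Real.pi * (u i - u j)) : ℝ) : ℂ) = _
    rw [Complex.ofRealHom_eq_coe]
    ring
  have h1 : (∏ i, Complex.exp ((θ * u i : ℝ) * Complex.I)) *
      ∏ i, Complex.exp ((-(θ * u i) : ℝ) * Complex.I) = 1 := by
    rw [← Finset.prod_mul_distrib]
    refine Finset.prod_eq_one fun i _ => ?_
    rw [← Complex.exp_add]
    have : ((θ * u i : ℝ) : ℂ) * Complex.I + ((-(θ * u i) : ℝ) : ℂ) * Complex.I = 0 := by
      push_cast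
      ring
    rw [this, Complex.exp_zero]
  unfold D
  rw [e, Matrix.det_mul, Matrix.det_mul, Matrix.det_diagonal, Matrix.det_diagonal]
  have h2 : ((Matrix.of fun i j => Real.sinc (Real.pi * (u i - u j)) :
      Matrix (Fin n) (Fin n) ℝ).map Complex.ofRealHom).det =
      (((Matrix.of fun i j => Real.sinc (Real.pi * (u i - u j)) :
        Matrix (Fin n) (Fin n) ℝ).det : ℝ) : ℂ) := by
    rw [← RingHom.mapMatrix_apply, ← RingHom.map_det]
    rfl
  rw [h2]
  have h3 : ∀ a b c : ℂ, a * b * c = b * (a * c) := fun a b c => by ring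
  rw [h3, h1, mul_one, Complex.ofReal_re]

/-- the determinantal kernels whose pair correlation is that of the sine kernel -/
theorem kernel_of_pairs {K : ℝ → ℂ} (hcont : Continuous K) (h0 : K 0 = 1)
    (hc : ∀ x, K (-x) = conj (K x)) (hK : PD K)
    (H : ∀ (κ : ℝ) (T : ℝ → ℝ), κ < 1 → Pool.Agent.Y744.TK κ T →
      ∫ y, Pool.Agent.Y744.ct T y * (‖K y‖ ^ 2 - S y ^ 2) = 0) :
    ∃ θ : ℝ, ∀ x : ℝ, K x = Complex.exp ((θ * x : ℝ) * Complex.I) * (S x : ℂ) := by
  have hp := psd_normSq hK hc
  have he : ∀ x, ‖K (-x)‖ ^ 2 = ‖K x‖ ^ 2 := fun x => by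
    rw [hc, Complex.norm_conj]
  have hb : ∀ x, |‖K x‖ ^ 2| ≤ 1 := by
    intro x
    have := psd_abs hp he x
    simpa [h0] using this
  have h1 := eq_sinc_sq hp (hcont.norm.pow 2) he hb H
  refine modulated hK hcont h0 hc fun x => ?_
  have h2 : ‖K x‖ ^ 2 = |S x| ^ 2 := by
    rw [sq_abs]
    exact h1 x
  exact (pow_left_inj₀ (norm_nonneg _) (abs_nonneg _) two_ne_zero).1 h2

end Q172.DetK
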