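import Pool.Agent.Q172.DetK.Av
import Pool.Agent.Q172.DetK.Det
import Pool.Agent.Y744.PCR.ConnB
import Pool.Agent.Q241.KL.Fin

/-!
# Positive definite pair correlations and determinantal correlations of the zeros of zeta
-/

set_option autoImplicit false

namespace Q172.DetK

open Filter Topology MeasureTheory Real
open Pool.Agent.Y744 Q241.KL
open Pool.Agent.Results.MP_103a5c_nt.BohrSetPairs (mont)

/-- the counting function along the filter -/
lemma Aa_lim {l : Filter ℝ} (hl : l ≤ atTop) {ρ : ℝ → ℝ} (hc : Continuous ρ)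
    (h2 : ∀ y, ρ y ≤ 2)
    (H : ∀ y : ℝ, 0 < y → Tendsto (fun T => FZ.n 1 (fun _ => -y) (fun _ => y) T) l
      (𝓝 (2 * rp ρ y))) (y : ℝ) :
    Tendsto (fun T => Aa T y) l (𝓝 (AR ρ y)) := by
  have hN : Tendsto (fun T => FZ.N T) l (𝓝 1) := FZ.hJ.mono_left hl
  have hpos : ∀ y : ℝ, 0 < y → Tendsto (fun T => Aa T y) l (𝓝 (AR ρ y)) := by
    intro y hy
    unfold AR
    rw [if_neg (by linarith)]
    have h1 := (H y hy).add hN
    rw [add_comm (2 * rp ρ y) 1] at h1
    exact h1.congr fun T => (Aa_n T hy.le).symm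
  rcases lt_trichotomy y 0 with hy | rfl | hy
  · have : (fun T => Aa T y) = fun _ => 0 := funext fun T => Aa_neg T y hy
    rw [this]
    unfold AR
    rw [if_pos hy]
    exact tendsto_const_nhds
  · unfold AR
    rw [if_neg (lt_irrefl 0), rp_zero, mul_zero, add_zero]
    rw [tendsto_order]
    constructor
    · intro a ha
      filter_upwards [hN.eventually (lt_mem_nhds ha), hl (eventually_gt_atTop (1 : ℝ))] with T h1 hT
      rcases N_le_Aa T with h3 | h3
      · exact h1.trans_le h3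
      · linarith
    · intro a ha
      obtain ⟨δ, hδ⟩ : ∃ δ : ℝ, 0 < δ ∧ 1 + 2 * (2 * δ) < a :=
        ⟨(a - 1) / 8, by linarith, by linarith⟩
      have h3 := rp_le hc h2 hδ.1.le
      have h4 : AR ρ δ < a := by
        unfold AR
        rw [if_neg (by linarith [hδ.1])]
        linarith [hδ.2]
      filter_upwards [(hpos δ hδ.1).eventually (gt_mem_nhds h4),
        hl (eventually_gt_atTop (1 : ℝ))] with T h5 hT
      exact (Aa_mono hT hδ.1.le).trans_lt h5
  · exact hpos y hy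

/-- **Montgomery's theorem against a pair correlation with a density** -/
theorem pair_test (RH : RiemannHypothesis) {l : Filter ℝ} [NeBot l] (hl : l ≤ atTop) {ρ : ℝ → ℝ}
    (hc : Continuous ρ) (he : ∀ y, ρ (-y) = ρ y) (h0 : ∀ y, 0 ≤ ρ y) (h2 : ∀ y, ρ y ≤ 2)
    (H : ∀ y : ℝ, 0 < y → Tendsto (fun T => FZ.n 1 (fun _ => -y) (fun _ => y) T) l
      (𝓝 (2 * rp ρ y))) {κ : ℝ} {K : ℝ → ℝ} (hκ : κ < 1) (hK : TK κ K) :
    ∫ y, ct K y * (ρ y - gd y) = 0 := by
  obtain ⟨κ', hκ0, hκ1, hKK⟩ : ∃ κ', 0 < κ' ∧ κ' < 1 ∧ TK κ' K :=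
    ⟨max κ (1 / 2), lt_max_of_lt_right (by norm_num), max_lt hκ (by norm_num),
      hK.mono (le_max_left _ _)⟩
  obtain ⟨C0, T0, hT0, hb⟩ := Aa_bound RH
  refine test_eq hc h0 h2 hKK fun h hh => ?_
  obtain ⟨D, hD⟩ := test_decay hKK h
  have h1 : ∫ y, AR ρ y * (ct K (y + h) - ct K (y - h)) = -mont (Kav K h) := by
    refine lim_int (fun T hT => Aa_mono (by linarith)) hb ?_ hD ?_ hl (AR_mono hc h0)
      (Aa_lim hl hc h2 H)
    · exact (hKK.ct_cont.measurable.comp (by fun_prop)).sub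
        (hKK.ct_cont.measurable.comp (by fun_prop))
    · have h1 := (mont_lim RH (NTf_fav hKK hκ0 hκ1 hh)).neg
      refine h1.congr fun T => ?_
      rw [Aa_int hKK hh, div_eq_inv_mul]
  rw [AR_int hc h0 h2 he hKK hh, mont_fav hKK hκ1 hh] at h1
  linarith

/-- the integral of a function of one variable over a box of dimension one -/
lemma box_one {f : (Fin 1 → ℝ) → ℝ} (a b : Fin 1 → ℝ) (h : a 0 < b 0) :
    ∫ u in Set.Icc a b, f u = ∫ y in (a 0)..(b 0), f (fun _ => y) := by
  have hmp := (volume_preserving_funUnique (Fin 1) ℝ).symm (MeasurableEquiv.funUnique (Fin 1) ℝ)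
  have hint := hmp.setIntegral_preimage_emb
    (MeasurableEquiv.funUnique (Fin 1) ℝ).symm.measurableEmbedding f (Set.Icc a b)
  refine hint.symm.trans ?_
  have hpre : (MeasurableEquiv.funUnique (Fin 1) ℝ).symm ⁻¹' Set.Icc a b = Set.Icc (a 0) (b 0) := by
    ext y
    rw [Set.mem_preimage, Set.mem_Icc, Set.mem_Icc, Pi.le_def, Pi.le_def]
    simp
  rw [hpre, intervalIntegral.integral_of_le h.le, integral_Icc_eq_integral_Ioc]
  rfl

/-- **pairs**: a positive semidefinite `g` such that the pair correlation has the density `1 - g` is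
the square of the sine kernel -/
theorem pair_rigid (RH : RiemannHypothesis) {l : Filter ℝ} [NeBot l] (hl : l ≤ atTop) {g : ℝ → ℝ}
    (hc : Continuous g) (he : ∀ y, g (-y) = g y) (hg : Pool.Agent.H506R3.Mag.PSDFun g)
    (H : ∀ a b : Fin 1 → ℝ, (∀ i, a i < b i) → Tendsto (fun T => (Nk 1 T a b : ℝ) / Q241.KL.X T) l
      (𝓝 (∫ y in (a 0)..(b 0), (1 - g y)))) : ∀ x, g x = S x ^ 2 := by
  have hρc : Continuous fun y => 1 - g y := continuous_const.sub hc
  have h0 : ∀ y, 0 ≤ 1 - g y := by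
    have hbox : ∀ a b : Fin 1 → ℝ, (∀ i, a i < b i) →
        0 ≤ ∫ u in Set.Icc a b, (fun u : Fin 1 → ℝ => 1 - g (u 0)) u := by
      intro a b hab
      rw [box_one a b (hab 0)]
      refine ge_of_tendsto (H a b hab) ?_
      filter_upwards [hl (eventually_gt_atTop (1 : ℝ))] with T hT
      have : 0 < Q241.KL.X T := Xf_pos hT
      positivity
    intro y
    exact nonneg_of_boxes (f := fun u : Fin 1 → ℝ => 1 - g (u 0))
      (continuous_const.sub (hc.comp (continuous_apply 0))) hbox (fun _ => y)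
  have hb : ∀ x, |g x| ≤ 1 := fun x => (psd_abs hg he x).trans (by linarith [h0 0])
  have h2 : ∀ y, 1 - g y ≤ 2 := fun y => by linarith [(abs_le.1 (hb y)).1]
  have hρe : ∀ y, 1 - g (-y) = 1 - g y := fun y => by rw [he]
  have hP : ∀ y : ℝ, 0 < y → Tendsto (fun T => FZ.n 1 (fun _ => -y) (fun _ => y) T) l
      (𝓝 (2 * rp (fun y => 1 - g y) y)) := by
    intro y hy
    have h3 := H (fun _ => -y) (fun _ => y) (fun _ => by linarith)
    have h4 : ∫ u in (-y)..y, (1 - g u) = 2 * rp (fun y => 1 - g y) y := by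
      unfold rp
      rw [← intervalIntegral.integral_add_adjacent_intervals (b := 0)
        (hρc.intervalIntegrable _ _) (hρc.intervalIntegrable _ _)]
      have h5 := intervalIntegral.integral_comp_neg (a := 0) (b := y) (fun u => 1 - g u)
      rw [neg_zero] at h5
      rw [← h5]
      have h6 : ∫ x in (0 : ℝ)..y, (1 - g (-x)) = ∫ x in (0 : ℝ)..y, (1 - g x) :=
        intervalIntegral.integral_congr fun u _ => hρe u
      rw [h6]
      ring
    rw [h4] at h3
    exact h3.congr fun T => (n_eq 1 _ _ T).symm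
  refine eq_sinc_sq hg hc he hb fun κ K hκ hK => ?_
  have h3 := pair_test RH hl hρc hρe h0 h2 hP hκ hK
  have h4 : ∀ y, ct K y * (g y - S y ^ 2) = -(ct K y * (1 - g y - gd y)) := by
    intro y
    unfold gd S
    ring
  simp_rw [h4]
  rw [integral_neg, h3, neg_zero]

open scoped ComplexConjugate in
/-- **determinantal correlations** -/
theorem det_rigid (RH : RiemannHypothesis) {l : Filter ℝ} [NeBot l] (hl : l ≤ atTop) {K : ℝ → ℂ}
    (hcont : Continuous K) (h0 : K 0 = 1) (hc : ∀ x, K (-x) = conj (K x))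
    (H : ∀ r : ℕ, 1 ≤ r → ∀ a b : Fin r → ℝ, (∀ i, a i < b i) →
      Tendsto (fun T => (Nk r T a b : ℝ) / Q241.KL.X T) l
      (𝓝 (∫ u in Set.Icc a b, D K (Fin.snoc u 0 : Fin (r + 1) → ℝ)))) :
    ∃ θ : ℝ, ∀ x : ℝ, K x = Complex.exp ((θ * x : ℝ) * Complex.I) * (S x : ℂ) := by
  have hdet : ∀ r : ℕ, 1 ≤ r → ∀ u : Fin r → ℝ,
      0 ≤ D K (Fin.snoc u 0 : Fin (r + 1) → ℝ) := by
    intro r hr u
    refine nonneg_of_boxes (f := fun u : Fin r → ℝ => D K (Fin.snoc u 0 : Fin (r + 1) → ℝ))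
      ((continuous_D hcont _).comp continuous_snoc) (fun a b hab => ?_) u
    refine ge_of_tendsto (H r hr a b hab) ?_
    filter_upwards [hl (eventually_gt_atTop (1 : ℝ))] with T hT
    have : 0 < Q241.KL.X T := Xf_pos hT
    positivity
  have hPD : PD K := psd_of_minors hc (D_all h0 hdet)
  have hp := psd_normSq hPD hc
  have he : ∀ x, ‖K (-x)‖ ^ 2 = ‖K x‖ ^ 2 := fun x => by
    rw [hc, Complex.norm_conj]
  have h2 := pair_rigid RH hl (g := fun x => ‖K x‖ ^ 2) (hcont.norm.pow 2) he hp fun a b hab => by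
    have h3 := H 1 le_rfl a b hab
    rw [box_one a b (hab 0)] at h3
    have h4 : ∀ y : ℝ, D K (Fin.snoc (fun _ : Fin 1 => y) 0 : Fin (1 + 1) → ℝ) =
        1 - ‖K y‖ ^ 2 := by
      intro y
      have e : (Fin.snoc (fun _ : Fin 1 => y) 0 : Fin 2 → ℝ) = ![y, 0] := by
        funext i
        fin_cases i
        · rfl
        · rfl
      show D K (Fin.snoc (fun _ : Fin 1 => y) 0 : Fin 2 → ℝ) = _
      rw [e]
      unfold D
      rw [Matrix.det_fin_two]
      simp only [Matrix.of_apply, Matrix.cons_val_zero, Matrix.cons_val_one, sub_self, sub_zero,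
        zero_sub, h0, mul_one, hc y]
      rw [Complex.mul_conj, Complex.sub_re, Complex.one_re, Complex.ofReal_re,
        Complex.normSq_eq_norm_sq]
    simp_rw [h4] at h3
    exact h3
  refine modulated hPD hcont h0 hc fun x => ?_
  have h3 : ‖K x‖ ^ 2 = |S x| ^ 2 := by
    rw [sq_abs]
    exact h2 x
  exact (pow_left_inj₀ (norm_nonneg _) (abs_nonneg _) two_ne_zero).1 h3

end Q172.DetK
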