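import Pool.Agent.Q172.DetK.Samp

/-!
# The sine kernel: positive definiteness and the sampling identity
-/

set_option autoImplicit false

namespace Q172.DetK

open Filter Topology MeasureTheory
open scoped ComplexConjugate

noncomputable section

/-- the sine kernel -/
def S (x : ℝ) : ℝ := Real.sinc (Real.pi * x)

lemma S_zero : S 0 = 1 := by
  unfold S
  rw [mul_zero, Real.sinc_zero]

lemma S_neg (x : ℝ) : S (-x) = S x := by
  unfold S
  rw [mul_neg, Real.sinc_neg]

lemma S_of_ne {x : ℝ} (hx : x ≠ 0) : S x = Real.sin (Real.pi * x) / (Real.pi * x) := by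
  unfold S
  rw [Real.sinc_of_ne_zero (mul_ne_zero Real.pi_ne_zero hx)]

lemma S_int {n : ℤ} (hn : n ≠ 0) : S n = 0 := by
  rw [S_of_ne (by exact_mod_cast hn), mul_comm, Real.sin_int_mul_pi, zero_div]

lemma continuous_S : Continuous S := by
  unfold S
  exact Real.continuous_sinc.comp (by fun_prop)

lemma abs_S_le (x : ℝ) : |S x| ≤ 1 := Real.abs_sinc_le_one _

/-- the sine kernel as a Fourier integral -/
lemma S_eq_integral (x : ℝ) :
    ∫ t in (-(1 / 2 : ℝ))..(1 / 2), Complex.exp ((2 * Real.pi * x * t : ℝ) * Complex.I) =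
      (S x : ℂ) := by
  rcases eq_or_ne x 0 with rfl | hx
  · simp only [mul_zero, zero_mul, Complex.ofReal_zero, Complex.exp_zero, S_zero]
    rw [intervalIntegral.integral_const]
    norm_num
  · have hpi := Real.pi_ne_zero
    have hc : (2 * Real.pi * x : ℝ) ≠ 0 := by positivity
    have h1 : ∀ t : ℝ, Complex.exp ((2 * Real.pi * x * t : ℝ) * Complex.I) =
        Complex.exp ((((2 * Real.pi * x : ℝ) : ℂ) * Complex.I) * t) := by
      intro t
      congr 1
      push_cast
      ring
    simp only [h1]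
    rw [integral_exp_mul_complex (mul_ne_zero (by exact_mod_cast hc) Complex.I_ne_zero)]
    have e1 : (((2 * Real.pi * x : ℝ) : ℂ) * Complex.I) * ((1 / 2 : ℝ) : ℂ) =
        ((Real.pi * x : ℝ) : ℂ) * Complex.I := by push_cast; ring
    have e2 : (((2 * Real.pi * x : ℝ) : ℂ) * Complex.I) * ((-(1 / 2) : ℝ) : ℂ) =
        ((-(Real.pi * x) : ℝ) : ℂ) * Complex.I := by push_cast; ring
    rw [e1, e2, Complex.exp_mul_I, Complex.exp_mul_I, ← Complex.ofReal_cos, ← Complex.ofReal_sin,
      ← Complex.ofReal_cos, ← Complex.ofReal_sin, Real.cos_neg, Real.sin_neg, S_of_ne hx]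
    have hx' : (x : ℂ) ≠ 0 := by exact_mod_cast hx
    have hpi' : (Real.pi : ℂ) ≠ 0 := by exact_mod_cast hpi
    push_cast
    field_simp
    ring

/-- the squares of the values of the sine kernel at the integer translates have sum one -/
lemma S_sq_sum (u : ℝ) : HasSum (fun n : ℤ => ‖((S (u - n) : ℝ) : ℂ)‖ ^ 2) 1 := by
  have hab : (-(1 / 2 : ℝ)) < 1 / 2 := by norm_num
  obtain ⟨f, hf⟩ : ∃ f : ℝ → ℂ, f = fun t => Complex.exp ((2 * Real.pi * u * t : ℝ) * Complex.I) :=
    ⟨_, rfl⟩
  have hfc : Continuous f := by rw [hf]; fun_prop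
  have hfn : ∀ t, ‖f t‖ = 1 := fun t => by
    rw [hf]
    exact Complex.norm_exp_ofReal_mul_I _
  have hL2 : MemLp f 2 (volume.restrict (Set.Ioc (-(1 / 2 : ℝ)) (1 / 2))) := by
    refine MemLp.of_bound hfc.aestronglyMeasurable 1 (Filter.Eventually.of_forall fun t => ?_)
    rw [hfn]
  have h1 := hasSum_sq_fourierCoeffOn hab hL2
  have e1 : ((1 / 2 : ℝ) - (-(1 / 2)))⁻¹ • ∫ x in (-(1 / 2 : ℝ))..(1 / 2), ‖f x‖ ^ 2 = 1 := by
    simp only [hfn, one_pow]
    rw [intervalIntegral.integral_const]
    norm_num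
  rw [e1] at h1
  have e2 : ∀ n : ℤ, fourierCoeffOn hab f n = ((S (u - n) : ℝ) : ℂ) := by
    intro n
    rw [fourierCoeffOn_eq_integral, ← S_eq_integral]
    have e3 : (1 / ((1 / 2 : ℝ) - (-(1 / 2)))) = 1 := by norm_num
    rw [e3, one_smul]
    refine intervalIntegral.integral_congr fun t _ => ?_
    rw [fourier_coe_apply, hf, smul_eq_mul, ← Complex.exp_add]
    congr 1
    push_cast
    ring
  simp only [e2] at h1
  exact h1

/-- the sine kernel is positive definite -/
lemma S_PD : PD (fun x => ((S x : ℝ) : ℂ)) := by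
  intro n u c
  obtain ⟨f, hf⟩ : ∃ f : Fin n → ℝ → ℂ, f = fun i t =>
    c i * Complex.exp ((2 * Real.pi * u i * t : ℝ) * Complex.I) := ⟨_, rfl⟩
  have hfc : ∀ i, Continuous (f i) := fun i => by rw [hf]; fun_prop
  have e1 : ∑ i, ∑ j, c i * conj (c j) * ((S (u i - u j) : ℝ) : ℂ) =
      ∫ t in (-(1 / 2 : ℝ))..(1 / 2), (∑ i, f i t) * conj (∑ i, f i t) := by
    have e2 : ∀ t, (∑ i, f i t) * conj (∑ i, f i t) = ∑ i, ∑ j, c i * conj (c j) *
        Complex.exp ((2 * Real.pi * (u i - u j) * t : ℝ) * Complex.I) := by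
      intro t
      rw [map_sum, Finset.sum_mul_sum]
      refine Finset.sum_congr rfl fun i _ => Finset.sum_congr rfl fun j _ => ?_
      rw [hf]
      simp only [map_mul]
      rw [← Complex.exp_conj, map_mul, Complex.conj_I, Complex.conj_ofReal]
      have e4 : Complex.exp ((2 * Real.pi * (u i - u j) * t : ℝ) * Complex.I) =
          Complex.exp ((2 * Real.pi * u i * t : ℝ) * Complex.I) *
          Complex.exp ((2 * Real.pi * u j * t : ℝ) * -Complex.I) := by
        rw [← Complex.exp_add]
        congr 1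
        push_cast
        ring
      rw [e4]
      ring
    simp only [e2]
    rw [intervalIntegral.integral_finsetSum]
    · refine Finset.sum_congr rfl fun i _ => ?_
      rw [intervalIntegral.integral_finsetSum]
      · refine Finset.sum_congr rfl fun j _ => ?_
        rw [intervalIntegral.integral_const_mul, S_eq_integral]
      · intro j _
        exact (by fun_prop : Continuous _).intervalIntegrable _ _
    · intro i _
      exact (by fun_prop : Continuous _).intervalIntegrable _ _
  rw [e1]
  have e5 : ∀ t, (∑ i, f i t) * conj (∑ i, f i t) = ((‖∑ i, f i t‖ ^ 2 : ℝ) : ℂ) := fun t => by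
    rw [Complex.mul_conj']
    push_cast
    rfl
  simp only [e5]
  rw [intervalIntegral.integral_ofReal, Complex.ofReal_re]
  exact intervalIntegral.integral_nonneg (by norm_num) fun t _ => by positivity

/-- the sampling formula for the sine kernel -/
lemma S_sampling (u w : ℝ) : HasSum (fun n : ℤ => S (u - n) * S (w - n)) (S (u - w)) := by
  have h1 := sampling S_PD (by simp [S_zero]) (fun x => by simp [S_neg])
    (fun n hn => by simp [S_int hn]) (fun u => S_sq_sum u) u w
  have h2 := Complex.hasSum_iff _ _ |>.1 h1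
  have h3 := h2.1
  simp only [Complex.conj_ofReal, ← Complex.ofReal_mul, Complex.ofReal_re] at h3
  exact h3

end

end Q172.DetK
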