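import Pool.Agent.Y744.PCR.Test
import Pool.Agent.H506R3.Mag.Boch2
import Pool.Agent.Q172.DetK.Sinc

/-!
# Band-limited test functions against positive definite functions
-/

set_option autoImplicit false

namespace Q172.DetK

open Filter Topology MeasureTheory Real
open Pool.Agent.Y744 (TK ct)
open Pool.Agent.H506R3.Mag (PSDFun gau)
open scoped FourierTransform RealInnerProductSpace

lemma ct_integrable {κ : ℝ} {K : ℝ → ℝ} (hK : TK κ K) : Integrable (ct K) := by
  obtain ⟨C, hC, h⟩ := hK.decay 1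
  refine (integrable_inv_one_add_sq.const_mul C).mono' hK.ct_cont.aestronglyMeasurable
    (Eventually.of_forall fun x => ?_)
  rw [Real.norm_eq_abs]
  refine (h x).trans (le_of_eq ?_)
  rw [pow_one, div_eq_mul_inv]

/-- Fourier inversion for the test functions -/
lemma ct_inv {κ : ℝ} {K : ℝ → ℝ} (hK : TK κ K) (α : ℝ) :
    ∫ y, ct K y * Real.cos (2 * π * y * α) = K α := by
  have hc : Continuous K := hK.cont
  have hi := hK.integrable
  have hm : ∀ (f : ℝ → ℝ) (ξ : ℝ), Pool.Agent.H506R3.Mag.ct f ξ =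
      ∫ y, f y * Real.cos (2 * π * ξ * y) := by
    intro f ξ
    unfold Pool.Agent.H506R3.Mag.ct
    refine integral_congr_ae (Eventually.of_forall fun x => ?_)
    show f x * Real.cos (2 * π * (inner ℝ x ξ)) = f x * Real.cos (2 * π * ξ * x)
    have : inner ℝ x ξ = ξ * x := rfl
    rw [this, mul_assoc (2 * π)]
  have hF : 𝓕 (fun x => (K x : ℂ)) = fun ξ => (ct K ξ : ℂ) := by
    funext ξ
    rw [Pool.Agent.H506R3.Mag.fourier_eq_ct hc hi hK.even, hm]
    rfl
  have hci := ct_integrable hK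
  have hinv : 𝓕⁻ (fun ξ => (ct K ξ : ℂ)) = fun x => (K x : ℂ) := by
    rw [← hF]
    refine Continuous.fourierInv_fourier_eq (by fun_prop) hi.ofReal ?_
    rw [hF]
    exact hci.ofReal
  have h1 := congrFun hinv α
  rw [Real.fourierInv_eq_fourier_neg,
    Pool.Agent.H506R3.Mag.fourier_eq_ct hK.ct_cont hci (TK.ct_neg K), hm] at h1
  have h2 : (∫ y, ct K y * Real.cos (2 * π * -α * y)) = K α := by exact_mod_cast h1
  rw [← h2]
  refine integral_congr_ae (Eventually.of_forall fun y => ?_)
  show ct K y * Real.cos (2 * π * y * α) = ct K y * Real.cos (2 * π * -α * y)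
  rw [show 2 * π * -α * y = -(2 * π * y * α) by ring, Real.cos_neg]

lemma ct_mul_int {κ : ℝ} {K : ℝ → ℝ} (hK : TK κ K) {f : ℝ → ℝ} (hf : Continuous f) {B : ℝ}
    (hB : ∀ x, |f x| ≤ B) : Integrable fun y => ct K y * f y := by
  refine ((ct_integrable hK).norm.mul_const B).mono' (hK.ct_cont.mul hf).aestronglyMeasurable
    (Eventually.of_forall fun y => ?_)
  rw [norm_mul]
  exact mul_le_mul_of_nonneg_left (hB y) (norm_nonneg _)

lemma ct_sin {κ : ℝ} {K : ℝ → ℝ} (_ : TK κ K) (α : ℝ) :
    ∫ y, ct K y * Real.sin (2 * π * y * α) = 0 := by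
  have h3 := integral_neg_eq_self (fun y => ct K y * Real.sin (2 * π * y * α)) volume
  have h4 : ∀ y, ct K (-y) * Real.sin (2 * π * (-y) * α) = -(ct K y * Real.sin (2 * π * y * α)) := by
    intro y
    rw [TK.ct_neg, show 2 * π * (-y) * α = -(2 * π * y * α) by ring, Real.sin_neg]
    ring
  simp only [h4] at h3
  rw [integral_neg] at h3
  linarith

lemma ct_shift {κ : ℝ} {K : ℝ → ℝ} (hK : TK κ K) (x α : ℝ) :
    ∫ y, ct K y * Real.cos (2 * π * (x - y) * α) = K α * Real.cos (2 * π * x * α) := by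
  have h1 : ∀ y, ct K y * Real.cos (2 * π * (x - y) * α) =
      Real.cos (2 * π * x * α) * (ct K y * Real.cos (2 * π * y * α)) +
      Real.sin (2 * π * x * α) * (ct K y * Real.sin (2 * π * y * α)) := by
    intro y
    rw [show 2 * π * (x - y) * α = 2 * π * x * α - 2 * π * y * α by ring, Real.cos_sub]
    ring
  have i1 := (ct_mul_int hK (f := fun y => Real.cos (2 * π * y * α)) (by fun_prop) (B := 1)
    fun y => Real.abs_cos_le_one _).const_mul (Real.cos (2 * π * x * α))
  have i2 := (ct_mul_int hK (f := fun y => Real.sin (2 * π * y * α)) (by fun_prop) (B := 1)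
    fun y => Real.abs_sin_le_one _).const_mul (Real.sin (2 * π * x * α))
  simp_rw [h1]
  rw [integral_add i1 i2, integral_const_mul, integral_const_mul, ct_inv hK, ct_sin hK]
  ring

section rep

variable {Ω : Type*} [MeasurableSpace Ω] (μ : Measure Ω) [IsFiniteMeasure μ] {a : Ω → ℝ}

/-- functions with a spectral representation -/
noncomputable def rep (a : Ω → ℝ) (x : ℝ) : ℝ := ∫ ω, Real.cos (2 * π * x * a ω) ∂μ

include μ in
lemma rep_conv (ha : Measurable a) {κ : ℝ} {K : ℝ → ℝ} (hK : TK κ K) (x : ℝ) :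
    ∫ y, ct K y * rep μ a (x - y) = ∫ ω, K (a ω) * Real.cos (2 * π * x * a ω) ∂μ := by
  have h1 : ∀ y, ct K y * rep μ a (x - y) =
      ∫ ω, ct K y * Real.cos (2 * π * (x - y) * a ω) ∂μ := by
    intro y
    unfold rep
    rw [integral_const_mul]
  simp_rw [h1]
  rw [integral_integral_swap]
  · refine integral_congr_ae (Eventually.of_forall fun ω => ?_)
    exact ct_shift hK x (a ω)
  · have h2 : Integrable (fun _ : Ω => (1 : ℝ)) μ := integrable_const _
    refine ((ct_integrable hK).norm.mul_prod h2).mono' ?_ (Eventually.of_forall fun z => ?_)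
    · apply Measurable.aestronglyMeasurable
      have hm := hK.ct_cont.measurable
      unfold Function.uncurry
      fun_prop
    · simp only [Function.uncurry]
      rw [norm_mul, mul_one]
      exact mul_le_of_le_one_right (norm_nonneg _) (by
        rw [Real.norm_eq_abs]
        exact Real.abs_cos_le_one _)

lemma rep_ineq (ha : Measurable a) {κ : ℝ} {K : ℝ → ℝ} (hK : TK κ K) (h0 : ∀ α, 0 ≤ K α)
    (h1 : ∀ α, K α ≤ 1) (x : ℝ) :
    |rep μ a x - ∫ y, ct K y * rep μ a (x - y)| ≤
      rep μ a 0 - ∫ y, ct K y * rep μ a (0 - y) := by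
  have hKm := hK.cont.measurable
  have i1 : ∀ x : ℝ, Integrable (fun ω => Real.cos (2 * π * x * a ω)) μ := fun x =>
    (integrable_const (1 : ℝ)).mono' (by fun_prop) (Eventually.of_forall fun ω =>
      by rw [Real.norm_eq_abs]; exact Real.abs_cos_le_one _)
  have i2 : ∀ x : ℝ, Integrable (fun ω => K (a ω) * Real.cos (2 * π * x * a ω)) μ := fun x =>
    (integrable_const (1 : ℝ)).mono' (by fun_prop) (Eventually.of_forall fun ω => by
      rw [Real.norm_eq_abs, abs_mul, abs_of_nonneg (h0 _)]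
      exact mul_le_one₀ (h1 _) (abs_nonneg _) (Real.abs_cos_le_one _))
  rw [rep_conv μ ha hK, rep_conv μ ha hK]
  unfold rep
  rw [← integral_sub (i1 x) (i2 x), ← integral_sub (i1 0) (i2 0)]
  refine (abs_integral_le_integral_abs).trans ?_
  refine integral_mono (((i1 x).sub (i2 x)).abs) ((i1 0).sub (i2 0)) fun ω => ?_
  show |Real.cos (2 * π * x * a ω) - K (a ω) * Real.cos (2 * π * x * a ω)| ≤
    Real.cos (2 * π * 0 * a ω) - K (a ω) * Real.cos (2 * π * 0 * a ω)
  rw [mul_zero, zero_mul, Real.cos_zero, mul_one]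
  have e : Real.cos (2 * π * x * a ω) - K (a ω) * Real.cos (2 * π * x * a ω) =
      (1 - K (a ω)) * Real.cos (2 * π * x * a ω) := by ring
  rw [e, abs_mul, abs_of_nonneg (sub_nonneg.2 (h1 _))]
  exact mul_le_of_le_one_right (sub_nonneg.2 (h1 _)) (Real.abs_cos_le_one _)

end rep

/-- products of positive semidefinite functions with Gaussian weights -/
lemma psd_gau {g : ℝ → ℝ} (hg : PSDFun g) {ε : ℝ} (hε : 0 < ε) :
    PSDFun (fun x => g x * gau ε x) := by
  intro s w
  set C : ℝ := ∫ x : ℝ, gau (2 * (2 * ε)) x with hC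
  have hC0 : 0 < C := by
    rw [hC]
    refine (integral_pos_iff_support_of_nonneg (fun x => (Pool.Agent.H506R3.Mag.gau_pos _ _).le)
      (Pool.Agent.H506R3.Mag.gau_int (by positivity))).2 ?_
    have : Function.support (gau (2 * (2 * ε)) : ℝ → ℝ) = Set.univ := by
      ext x
      simp [(Pool.Agent.H506R3.Mag.gau_pos (2 * (2 * ε)) x).ne']
    rw [this]
    simp
  have hgi : Integrable (gau (2 * ε) : ℝ → ℝ) := Pool.Agent.H506R3.Mag.gau_int (by positivity)
  have e1 : ∀ x y : ℝ, gau ε (x - y) = C⁻¹ * ∫ u : ℝ, gau (2 * ε) (u - x) * gau (2 * ε) (u - y) := by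
    intro x y
    have h1 := Pool.Agent.H506R3.Mag.gau_conv (V := ℝ) (ε := 2 * ε) (y - x)
    have h2 : ∫ u : ℝ, gau (2 * ε) (u - x) * gau (2 * ε) (u - y) =
        ∫ v : ℝ, gau (2 * ε) v * gau (2 * ε) (v - (y - x)) := by
      rw [← integral_sub_right_eq_self (fun v : ℝ => gau (2 * ε) v * gau (2 * ε) (v - (y - x))) x]
      refine integral_congr_ae (Eventually.of_forall fun u => ?_)
      show gau (2 * ε) (u - x) * gau (2 * ε) (u - y) =
        gau (2 * ε) (u - x) * gau (2 * ε) (u - x - (y - x))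
      congr 2
      ring
    rw [h2, h1, ← hC, show 2 * ε / 2 = ε by ring]
    have h3 : gau ε (y - x) = gau ε (x - y) := by
      unfold gau
      rw [norm_sub_rev]
    rw [h3]
    field_simp
  have i1 : ∀ x y : ℝ, Integrable fun u : ℝ => gau (2 * ε) (u - x) * gau (2 * ε) (u - y) := by
    intro x y
    refine (hgi.comp_sub_right x).mono' ?_ (Eventually.of_forall fun u => ?_)
    · have := Pool.Agent.H506R3.Mag.gau_cont (V := ℝ) (2 * ε)
      exact ((this.comp (by fun_prop)).mul (this.comp (by fun_prop))).aestronglyMeasurable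
    · rw [norm_mul, Real.norm_eq_abs, Real.norm_eq_abs,
        abs_of_pos (Pool.Agent.H506R3.Mag.gau_pos _ _), abs_of_pos (Pool.Agent.H506R3.Mag.gau_pos _ _)]
      exact mul_le_of_le_one_right (Pool.Agent.H506R3.Mag.gau_pos _ _).le
        (Pool.Agent.H506R3.Mag.gau_le_one (by positivity) _)
  have i2 : ∀ x y : ℝ, Integrable fun u : ℝ =>
      (w x * gau (2 * ε) (u - x)) * (w y * gau (2 * ε) (u - y)) * g (x - y) := by
    intro x y
    refine ((i1 x y).const_mul (w x * w y * g (x - y))).congr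
      (Eventually.of_forall fun u => ?_)
    show (w x * w y * g (x - y)) * (gau (2 * ε) (u - x) * gau (2 * ε) (u - y)) = _
    ring
  have e2 : ∑ x ∈ s, ∑ y ∈ s, w x * w y * (g (x - y) * gau ε (x - y)) =
      C⁻¹ * ∫ u : ℝ, ∑ x ∈ s, ∑ y ∈ s, (w x * gau (2 * ε) (u - x)) * (w y * gau (2 * ε) (u - y)) *
        g (x - y) := by
    rw [integral_finsetSum _ fun x _ => integrable_finsetSum _ fun y _ => i2 x y]
    rw [Finset.mul_sum]
    refine Finset.sum_congr rfl fun x _ => ?_
    rw [integral_finsetSum _ fun y _ => i2 x y]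
    rw [Finset.mul_sum]
    refine Finset.sum_congr rfl fun y _ => ?_
    have h1 : ∀ u : ℝ, (w x * gau (2 * ε) (u - x)) * (w y * gau (2 * ε) (u - y)) * g (x - y) =
        (w x * w y * g (x - y)) * (gau (2 * ε) (u - x) * gau (2 * ε) (u - y)) := fun u => by ring
    simp_rw [h1]
    rw [integral_const_mul, e1 x y]
    ring
  rw [e2]
  refine mul_nonneg (inv_nonneg.2 hC0.le) (integral_nonneg fun u => ?_)
  exact hg s fun x => w x * gau (2 * ε) (u - x)

end Q172.DetK
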