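import Pool.Agent.Q172.DetK.Rep

/-!
# Positive definite functions which agree with the square of the sine kernel on band-limited
test functions
-/

set_option autoImplicit false

namespace Q172.DetK

open Filter Topology MeasureTheory Real
open Pool.Agent.Y744 (TK ct)
open Pool.Agent.H506R3.Mag (PSDFun gau)

lemma psd_zero {g : ℝ → ℝ} (hg : PSDFun g) : 0 ≤ g 0 := by
  have := hg {0} (fun _ => 1)
  simpa using this

lemma psd_abs {g : ℝ → ℝ} (hg : PSDFun g) (he : ∀ x, g (-x) = g x) (x : ℝ) : |g x| ≤ g 0 := by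
  rcases eq_or_ne x 0 with rfl | hx
  · rw [abs_of_nonneg (psd_zero hg)]
  · have hs : ∀ w : ℝ → ℝ, ∑ a ∈ ({x, 0} : Finset ℝ), ∑ b ∈ ({x, 0} : Finset ℝ),
        w a * w b * g (a - b) = w x * w x * g 0 + 2 * (w x * w 0 * g x) + w 0 * w 0 * g 0 := by
      intro w
      rw [Finset.sum_pair hx, Finset.sum_pair hx, Finset.sum_pair hx, sub_self, sub_zero, zero_sub,
        he, sub_zero]
      ring
    have h1 := hg {x, 0} (fun _ => 1)
    have h2 := hg {x, 0} (fun a => if a = 0 then -1 else 1)
    rw [hs] at h1 h2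
    simp only [if_neg hx, if_true] at h2
    rw [abs_le]
    constructor <;> linarith

/-- the inequality for positive semidefinite functions -/
lemma psd_ineq {g : ℝ → ℝ} (hg : PSDFun g) (hc : Continuous g) (he : ∀ x, g (-x) = g x)
    (hb : ∀ x, |g x| ≤ 1) {κ : ℝ} {K : ℝ → ℝ} (hK : TK κ K) (h0 : ∀ α, 0 ≤ K α)
    (h1 : ∀ α, K α ≤ 1) (x : ℝ) :
    |g x - ∫ y, ct K y * g (x - y)| ≤ g 0 - ∫ y, ct K y * g (0 - y) := by
  have hab := psd_abs hg he
  rcases (psd_zero hg).eq_or_lt with hg0 | hg0
  · have hz : ∀ x, g x = 0 := fun x => by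
      have := hab x
      rw [← hg0] at this
      exact abs_nonpos_iff.1 this
    simp [hz]
  · -- regularisation
    have step : ∀ n : ℕ, |g x * gau (1 / ((n : ℝ) + 1)) x -
        ∫ y, ct K y * (g (x - y) * gau (1 / ((n : ℝ) + 1)) (x - y))| ≤
        g 0 - ∫ y, ct K y * (g (0 - y) * gau (1 / ((n : ℝ) + 1)) (0 - y)) := by
      intro n
      set ε : ℝ := 1 / ((n : ℝ) + 1) with hε
      have hε0 : 0 < ε := by positivity
      have hp1 : PSDFun (fun x => (g 0)⁻¹ * (g x * gau ε x)) := by
        intro s w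
        have := psd_gau hg hε0 s w
        have e : ∑ x ∈ s, ∑ y ∈ s, w x * w y * ((g 0)⁻¹ * (g (x - y) * gau ε (x - y))) =
            (g 0)⁻¹ * ∑ x ∈ s, ∑ y ∈ s, w x * w y * (g (x - y) * gau ε (x - y)) := by
          rw [Finset.mul_sum]
          refine Finset.sum_congr rfl fun a _ => ?_
          rw [Finset.mul_sum]
          refine Finset.sum_congr rfl fun b _ => ?_
          ring
        rw [e]
        exact mul_nonneg (inv_nonneg.2 hg0.le) this
      have hcc : Continuous (fun x => (g 0)⁻¹ * (g x * gau ε x)) :=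
        continuous_const.mul (hc.mul (Pool.Agent.H506R3.Mag.gau_cont ε))
      have hbb : ∀ x, |(g 0)⁻¹ * (g x * gau ε x)| ≤ 1 := by
        intro x
        rw [abs_mul, abs_mul, abs_of_pos (inv_pos.2 hg0),
          abs_of_pos (Pool.Agent.H506R3.Mag.gau_pos ε x), inv_mul_le_iff₀ hg0, mul_one]
        exact (mul_le_of_le_one_right (abs_nonneg _)
          (Pool.Agent.H506R3.Mag.gau_le_one hε0.le x)).trans (hab x)
      have hii : Integrable (fun x => (g 0)⁻¹ * (g x * gau ε x)) := by
        refine Integrable.const_mul ?_ _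
        refine (Pool.Agent.H506R3.Mag.gau_int (V := ℝ) hε0).mono'
          (hc.mul (Pool.Agent.H506R3.Mag.gau_cont ε)).aestronglyMeasurable
          (Eventually.of_forall fun x => ?_)
        rw [norm_mul, Real.norm_eq_abs, Real.norm_eq_abs,
          abs_of_pos (Pool.Agent.H506R3.Mag.gau_pos ε x)]
        exact mul_le_of_le_one_left (Pool.Agent.H506R3.Mag.gau_pos ε x).le (hb x)
      have hg1 : ∀ x : ℝ, gau ε (-x) = gau ε x := fun x => by
        unfold gau
        rw [norm_neg]
      have hee : ∀ x, (g 0)⁻¹ * (g (-x) * gau ε (-x)) = (g 0)⁻¹ * (g x * gau ε x) := fun x => by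
        rw [he, hg1]
      have hgz : gau ε (0 : ℝ) = 1 := by
        unfold gau
        simp
      obtain ⟨P, hP, hrep⟩ := Pool.Agent.H506R3.Mag.bochner hp1 hcc hbb hii hee
        (by rw [hgz, mul_one, inv_mul_cancel₀ hg0.ne'])
      have hr : ∀ x, rep P (fun t => t / (2 * π)) x = (g 0)⁻¹ * (g x * gau ε x) := by
        intro x
        have h2 := hrep x
        rw [charFun_apply_real] at h2
        have h3 := congrArg Complex.re h2
        rw [Complex.ofReal_re] at h3
        rw [← h3]
        have h4 : Integrable (fun t : ℝ => Complex.exp (x * t * Complex.I)) P :=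
          (integrable_const (1 : ℝ)).mono' (by fun_prop) (Eventually.of_forall fun t => by
            have : (x : ℂ) * t * Complex.I = ((x * t : ℝ) : ℂ) * Complex.I := by push_cast; ring
            rw [this, Complex.norm_exp_ofReal_mul_I])
        have h5 : (∫ t, Complex.exp (x * t * Complex.I) ∂P).re =
            ∫ t, (Complex.exp (x * t * Complex.I)).re ∂P := by
          have := integral_re (𝕜 := ℂ) h4
          simpa using this.symm
        rw [h5]
        unfold rep
        refine integral_congr_ae (Eventually.of_forall fun t => ?_)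
        show Real.cos (2 * π * x * (t / (2 * π))) = (Complex.exp (x * t * Complex.I)).re
        have : (x : ℂ) * t * Complex.I = ((x * t : ℝ) : ℂ) * Complex.I := by push_cast; ring
        rw [this, Complex.exp_ofReal_mul_I_re]
        congr 1
        have := Real.pi_ne_zero
        field_simp
      have key := rep_ineq P (a := fun t => t / (2 * π)) (by fun_prop) hK h0 h1 x
      simp_rw [hr] at key
      have e1 : ∀ x, ∫ y, ct K y * ((g 0)⁻¹ * (g (x - y) * gau ε (x - y))) =
          (g 0)⁻¹ * ∫ y, ct K y * (g (x - y) * gau ε (x - y)) := by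
        intro x
        rw [← integral_const_mul]
        refine integral_congr_ae (Eventually.of_forall fun y => ?_)
        show ct K y * ((g 0)⁻¹ * (g (x - y) * gau ε (x - y))) =
          (g 0)⁻¹ * (ct K y * (g (x - y) * gau ε (x - y)))
        ring
      rw [e1, e1, hgz, mul_one, ← mul_sub, ← mul_sub, abs_mul, abs_of_pos (inv_pos.2 hg0)] at key
      exact le_of_mul_le_mul_left key (inv_pos.2 hg0)
    have hgl : ∀ z : ℝ, Tendsto (fun n : ℕ => gau (1 / ((n : ℝ) + 1)) z) atTop (𝓝 1) := by
      intro z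
      have h2 : Tendsto (fun k : ℕ => -((1 / ((k : ℝ) + 1))) * ‖z‖ ^ 2) atTop
          (𝓝 (-(0) * ‖z‖ ^ 2)) :=
        ((tendsto_one_div_add_atTop_nhds_zero_nat).neg).mul_const _
      have h3 := (Real.continuous_exp.tendsto _).comp h2
      simpa [gau, Function.comp_def] using h3
    have hint : ∀ x : ℝ, Tendsto (fun n : ℕ =>
        ∫ y, ct K y * (g (x - y) * gau (1 / ((n : ℝ) + 1)) (x - y))) atTop
        (𝓝 (∫ y, ct K y * g (x - y))) := by
      intro x
      refine tendsto_integral_of_dominated_convergence (fun y => |ct K y|) (fun n => ?_)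
        (ct_integrable hK).abs (fun n => Eventually.of_forall fun y => ?_)
        (Eventually.of_forall fun y => ?_)
      · have := Pool.Agent.H506R3.Mag.gau_cont (V := ℝ) (1 / ((n : ℝ) + 1))
        exact (hK.ct_cont.mul ((hc.comp (by fun_prop)).mul
          (this.comp (by fun_prop)))).aestronglyMeasurable
      · rw [norm_mul, norm_mul, Real.norm_eq_abs, Real.norm_eq_abs, Real.norm_eq_abs,
          abs_of_pos (Pool.Agent.H506R3.Mag.gau_pos _ _)]
        refine mul_le_of_le_one_right (abs_nonneg _) ?_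
        exact mul_le_one₀ (hb _) (Pool.Agent.H506R3.Mag.gau_pos _ _).le
          (Pool.Agent.H506R3.Mag.gau_le_one (by positivity) _)
      · have := (hgl (x - y)).const_mul (g (x - y))
        rw [mul_one] at this
        exact this.const_mul _
    have hx := (hgl x).const_mul (g x)
    rw [mul_one] at hx
    exact le_of_tendsto_of_tendsto' ((hx.sub (hint x)).abs) ((hint 0).const_sub (g 0)) step

/-- the square of the sine kernel has a spectral representation -/
lemma S_sq_rep (x : ℝ) :
    rep ((volume.restrict (Set.Ioc (-(1 / 2 : ℝ)) (1 / 2))).prod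
      (volume.restrict (Set.Ioc (-(1 / 2 : ℝ)) (1 / 2)))) (fun p => p.1 + p.2) x = S x ^ 2 := by
  set ν : Measure ℝ := volume.restrict (Set.Ioc (-(1 / 2 : ℝ)) (1 / 2)) with hν
  have hle : (-(1 / 2 : ℝ)) ≤ 1 / 2 := by norm_num
  have hci : Integrable (fun t : ℝ => Real.cos (2 * π * x * t)) ν :=
    (integrable_const (1 : ℝ)).mono' (by fun_prop) (Eventually.of_forall fun t => by
      rw [Real.norm_eq_abs]; exact Real.abs_cos_le_one _)
  have hsi : Integrable (fun t : ℝ => Real.sin (2 * π * x * t)) ν :=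
    (integrable_const (1 : ℝ)).mono' (by fun_prop) (Eventually.of_forall fun t => by
      rw [Real.norm_eq_abs]; exact Real.abs_sin_le_one _)
  have h1 := S_eq_integral x
  rw [intervalIntegral.integral_of_le hle, ← hν] at h1
  have h2 : ∀ t : ℝ, Complex.exp ((2 * π * x * t : ℝ) * Complex.I) =
      ((Real.cos (2 * π * x * t) : ℝ) : ℂ) + ((Real.sin (2 * π * x * t) : ℝ) : ℂ) * Complex.I := by
    intro t
    rw [Complex.exp_mul_I, ← Complex.ofReal_cos, ← Complex.ofReal_sin]
  simp_rw [h2] at h1
  rw [integral_add hci.ofReal (hsi.ofReal.mul_const _), integral_mul_const,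
    integral_complex_ofReal, integral_complex_ofReal] at h1
  have h3 : ∫ t, Real.cos (2 * π * x * t) ∂ν = S x := by
    have := congrArg Complex.re h1
    simpa using this
  have h4 : ∫ t, Real.sin (2 * π * x * t) ∂ν = 0 := by
    have := congrArg Complex.im h1
    simpa using this
  unfold rep
  have h5 : ∀ p : ℝ × ℝ, Real.cos (2 * π * x * (p.1 + p.2)) =
      Real.cos (2 * π * x * p.1) * Real.cos (2 * π * x * p.2) -
      Real.sin (2 * π * x * p.1) * Real.sin (2 * π * x * p.2) := by
    intro p
    rw [mul_add, Real.cos_add]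
  simp_rw [h5]
  rw [integral_sub (hci.mul_prod hci) (hsi.mul_prod hsi),
    integral_prod_mul (fun t => Real.cos (2 * π * x * t)) (fun t => Real.cos (2 * π * x * t)),
    integral_prod_mul (fun t => Real.sin (2 * π * x * t)) (fun t => Real.sin (2 * π * x * t)),
    h3, h4]
  ring

/-- cutoffs -/
lemma exists_cut (n : ℕ) : ∃ K : ℝ → ℝ, TK (1 - 1 / ((n : ℝ) + 3)) K ∧ (∀ α, 0 ≤ K α) ∧
    (∀ α, K α ≤ 1) ∧ ∀ α, |α| ≤ 1 - 2 / ((n : ℝ) + 3) → K α = 1 := by
  have hn : (0 : ℝ) ≤ n := Nat.cast_nonneg n
  have h3 : 2 / ((n : ℝ) + 3) < 1 := by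
    rw [div_lt_one (by positivity)]
    linarith
  let f : ContDiffBump (0 : ℝ) := ⟨1 - 2 / ((n : ℝ) + 3), 1 - 1 / ((n : ℝ) + 3), by linarith, by
    have : 1 / ((n : ℝ) + 3) < 2 / ((n : ℝ) + 3) := by gcongr; norm_num
    linarith⟩
  refine ⟨fun x => f x, ⟨f.contDiff, fun x => f.neg x, fun x hx => ?_⟩, fun α => f.nonneg,
    fun α => f.le_one, fun α hα => ?_⟩
  · by_contra hne
    have h1 : x ∈ Function.support f := hne
    rw [f.support_eq] at h1
    rw [Metric.mem_ball, Real.dist_eq, sub_zero] at h1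
    exact absurd hx (not_lt.2 h1.le)
  · refine f.one_of_mem_closedBall ?_
    rw [Metric.mem_closedBall, Real.dist_eq, sub_zero]
    exact hα

/-- **rigidity**: a continuous positive semidefinite function, bounded by one, which agrees with the
square of the sine kernel on band-limited test functions is the square of the sine kernel -/
theorem eq_sinc_sq {g : ℝ → ℝ} (hg : PSDFun g) (hc : Continuous g) (he : ∀ x, g (-x) = g x)
    (hb : ∀ x, |g x| ≤ 1)
    (H : ∀ (κ : ℝ) (K : ℝ → ℝ), κ < 1 → TK κ K → ∫ y, ct K y * (g y - S y ^ 2) = 0) (x : ℝ) :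
    g x = S x ^ 2 := by
  have hSc : Continuous fun y => S y ^ 2 := continuous_S.pow 2
  have hSb : ∀ y, |S y ^ 2| ≤ 1 := fun y => by
    rw [abs_pow]
    exact pow_le_one₀ (abs_nonneg _) (abs_S_le y)
  -- the translated identity
  have H2 : ∀ (κ : ℝ) (K : ℝ → ℝ), κ < 1 → TK κ K → ∀ x : ℝ,
      ∫ y, ct K y * g (x - y) = ∫ y, ct K y * S (x - y) ^ 2 := by
    intro κ K hκ hK x
    set Δ : ℝ → ℝ := fun y => g y - S y ^ 2 with hΔ
    have hΔc : Continuous Δ := hc.sub hSc
    have hΔb : ∀ y, |Δ y| ≤ 2 := fun y => by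
      rw [hΔ]
      refine (abs_sub _ _).trans ?_
      linarith [hb y, hSb y]
    have hΔe : ∀ y, Δ (-y) = Δ y := fun y => by
      simp only [hΔ]
      rw [he, S_neg]
    have hKm : TK κ (fun α => K α * Real.cos (2 * π * x * α)) := by
      refine ⟨hK.smooth.mul (Real.contDiff_cos.comp (by fun_prop)), fun α => ?_, fun α hα => ?_⟩
      · show K (-α) * Real.cos (2 * π * x * -α) = K α * Real.cos (2 * π * x * α)
        rw [hK.even, show 2 * π * x * -α = -(2 * π * x * α) by ring, Real.cos_neg]
      · rw [hK.supp α hα, zero_mul]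
    have hct : ∀ y, ct (fun α => K α * Real.cos (2 * π * x * α)) y =
        (ct K (x - y) + ct K (x + y)) / 2 := by
      intro y
      unfold ct
      rw [← integral_add (hK.mul_int (by fun_prop)) (hK.mul_int (by fun_prop)),
        ← integral_div]
      refine integral_congr_ae (Eventually.of_forall fun α => ?_)
      show K α * Real.cos (2 * π * x * α) * Real.cos (2 * π * y * α) =
        (K α * Real.cos (2 * π * (x - y) * α) + K α * Real.cos (2 * π * (x + y) * α)) / 2
      rw [show 2 * π * (x - y) * α = 2 * π * x * α - 2 * π * y * α by ring,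
        show 2 * π * (x + y) * α = 2 * π * x * α + 2 * π * y * α by ring, Real.cos_sub, Real.cos_add]
      ring
    have h1 := H κ _ hκ hKm
    have j1 : Integrable fun y => ct K (x - y) * Δ y := by
      have := (ct_mul_int hK (f := fun y => Δ (x - y)) (hΔc.comp (by fun_prop)) (B := 2)
        fun y => hΔb _).comp_sub_left x
      refine this.congr (Eventually.of_forall fun y => ?_)
      show ct K (x - y) * Δ (x - (x - y)) = ct K (x - y) * Δ y
      rw [sub_sub_cancel]
    have e1 : ∫ y, ct K (x - y) * Δ y = ∫ y, ct K y * Δ (x - y) := by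
      rw [← integral_sub_left_eq_self (fun y => ct K y * Δ (x - y)) volume x]
      refine integral_congr_ae (Eventually.of_forall fun y => ?_)
      show ct K (x - y) * Δ y = ct K (x - y) * Δ (x - (x - y))
      rw [sub_sub_cancel]
    have e2 : ∫ y, ct K (x + y) * Δ y = ∫ y, ct K (x - y) * Δ y := by
      rw [← integral_neg_eq_self (fun y => ct K (x - y) * Δ y) volume]
      refine integral_congr_ae (Eventually.of_forall fun y => ?_)
      show ct K (x + y) * Δ y = ct K (x - -y) * Δ (-y)
      rw [hΔe, sub_neg_eq_add]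
    have j2 : Integrable fun y => ct K (x + y) * Δ y := by
      have := j1.comp_neg
      refine this.congr (Eventually.of_forall fun y => ?_)
      show ct K (x - -y) * Δ (-y) = ct K (x + y) * Δ y
      rw [hΔe, sub_neg_eq_add]
    have e3 : ∫ y, ct (fun α => K α * Real.cos (2 * π * x * α)) y * (g y - S y ^ 2) =
        ∫ y, ct K y * Δ (x - y) := by
      have h2 : ∀ y, ct (fun α => K α * Real.cos (2 * π * x * α)) y * (g y - S y ^ 2) =
          (1 / 2) * (ct K (x - y) * Δ y) + (1 / 2) * (ct K (x + y) * Δ y) := by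
        intro y
        rw [hct]
        simp only [hΔ]
        ring
      simp_rw [h2]
      rw [integral_add (j1.const_mul _) (j2.const_mul _), integral_const_mul, integral_const_mul,
        e2, e1]
      ring
    rw [e3] at h1
    have i1 := ct_mul_int hK (f := fun y => g (x - y)) (hc.comp (by fun_prop)) (B := 1)
      fun y => hb _
    have i2 := ct_mul_int hK (f := fun y => S (x - y) ^ 2) (hSc.comp (by fun_prop)) (B := 1)
      fun y => hSb _
    have h3 : ∫ y, ct K y * Δ (x - y) = (∫ y, ct K y * g (x - y)) -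
        ∫ y, ct K y * S (x - y) ^ 2 := by
      rw [← integral_sub i1 i2]
      refine integral_congr_ae (Eventually.of_forall fun y => ?_)
      show ct K y * (g (x - y) - S (x - y) ^ 2) = _
      ring
    rw [h3] at h1
    linarith
  -- the cutoffs
  choose K hK hK0 hK1 hKone using exists_cut
  set ν : Measure ℝ := volume.restrict (Set.Ioc (-(1 / 2 : ℝ)) (1 / 2)) with hν
  have ha : Measurable (fun p : ℝ × ℝ => p.1 + p.2) := by fun_prop
  set C : ℕ → ℝ := fun n => ∫ y, ct (K n) y * S (0 - y) ^ 2 with hC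
  have hκ1 : ∀ n : ℕ, 1 - 1 / ((n : ℝ) + 3) < 1 := fun n => by
    have : 0 < 1 / ((n : ℝ) + 3) := by positivity
    linarith
  have hCt : Tendsto C atTop (𝓝 1) := by
    have h1 : ∀ n, C n = ∫ p : ℝ × ℝ, K n (p.1 + p.2) ∂(ν.prod ν) := by
      intro n
      have := rep_conv (ν.prod ν) ha (hK n) 0
      simp_rw [hν, S_sq_rep] at this
      rw [hC]
      simp only
      rw [this]
      refine integral_congr_ae (Eventually.of_forall fun p => ?_)
      show K n (p.1 + p.2) * Real.cos (2 * π * 0 * (p.1 + p.2)) = K n (p.1 + p.2)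
      rw [mul_zero, zero_mul, Real.cos_zero, mul_one]
    have hpν : IsProbabilityMeasure ν := by
      refine ⟨?_⟩
      rw [hν, Measure.restrict_apply MeasurableSet.univ, Set.univ_inter, Real.volume_Ioc]
      norm_num
    have h2 : (1 : ℝ) = ∫ _ : ℝ × ℝ, (1 : ℝ) ∂(ν.prod ν) := by
      rw [integral_const, probReal_univ, one_smul]
    rw [h2]
    refine Tendsto.congr (fun n => (h1 n).symm) ?_
    refine tendsto_integral_of_dominated_convergence (fun _ => (1 : ℝ)) (fun n => ?_)
      (integrable_const _) (fun n => Eventually.of_forall fun p => ?_) ?_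
    · have := (hK n).cont.measurable
      exact (this.comp ha).aestronglyMeasurable
    · rw [Real.norm_eq_abs, abs_of_nonneg (hK0 n _)]
      exact hK1 n _
    · have hae : ∀ᵐ t ∂ν, -(1 / 2 : ℝ) < t ∧ t < 1 / 2 := by
        have b1 : ∀ᵐ t ∂ν, t ∈ Set.Ioc (-(1 / 2 : ℝ)) (1 / 2) := ae_restrict_mem measurableSet_Ioc
        have b2 : ∀ᵐ t ∂ν, t ∉ ({1 / 2} : Set ℝ) :=
          ae_restrict_of_ae ((Set.countable_singleton (1 / 2 : ℝ)).ae_notMem volume)
        filter_upwards [b1, b2] with t h1 h2
        exact ⟨h1.1, lt_of_le_of_ne h1.2 h2⟩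
      have c1 := Measure.quasiMeasurePreserving_fst (μ := ν) (ν := ν) |>.ae hae
      have c2 := Measure.quasiMeasurePreserving_snd (μ := ν) (ν := ν) |>.ae hae
      filter_upwards [c1, c2] with p h3 h4
      have h5 : |p.1 + p.2| < 1 := by
        rw [abs_lt]
        constructor <;> linarith [h3.1, h3.2, h4.1, h4.2]
      have h6 : Tendsto (fun n : ℕ => 1 - 2 / ((n : ℝ) + 3)) atTop (𝓝 (1 - 0)) := by
        refine Tendsto.const_sub 1 ?_
        exact (tendsto_const_nhds (x := (2 : ℝ))).div_atTop
          (tendsto_natCast_atTop_atTop.atTop_add tendsto_const_nhds)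
      rw [sub_zero] at h6
      refine tendsto_const_nhds.congr' ?_
      filter_upwards [(tendsto_order.1 h6).1 _ h5] with n hn
      exact (hKone n _ hn.le).symm
  have hfin : ∀ n, |g x - S x ^ 2| ≤ 2 * (1 - C n) := by
    intro n
    have h1 := psd_ineq hg hc he hb (hK n) (hK0 n) (hK1 n) x
    have h2 := rep_ineq (ν.prod ν) ha (hK n) (hK0 n) (hK1 n) x
    simp_rw [hν, S_sq_rep] at h2
    rw [H2 _ _ (hκ1 n) (hK n), H2 _ _ (hκ1 n) (hK n)] at h1
    have h3 : g 0 ≤ 1 := (le_abs_self _).trans (hb 0)
    have h4 : S 0 ^ 2 = 1 := by rw [S_zero]; norm_num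
    rw [h4] at h2
    have h5 : |g x - S x ^ 2| ≤ |g x - ∫ y, ct (K n) y * S (x - y) ^ 2| +
        |S x ^ 2 - ∫ y, ct (K n) y * S (x - y) ^ 2| := by
      have := abs_sub (g x - ∫ y, ct (K n) y * S (x - y) ^ 2)
        (S x ^ 2 - ∫ y, ct (K n) y * S (x - y) ^ 2)
      have e : g x - S x ^ 2 = (g x - ∫ y, ct (K n) y * S (x - y) ^ 2) -
        (S x ^ 2 - ∫ y, ct (K n) y * S (x - y) ^ 2) := by ring
      rw [e]
      exact this
    have h6 : C n = ∫ y, ct (K n) y * S (0 - y) ^ 2 := rfl
    rw [← h6] at h1 h2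
    linarith
  have hlim : Tendsto (fun n => 2 * (1 - C n)) atTop (𝓝 (2 * (1 - 1))) :=
    (hCt.const_sub 1).const_mul 2
  rw [sub_self, mul_zero] at hlim
  have h7 := ge_of_tendsto' hlim hfin
  have h8 := abs_nonpos_iff.1 h7
  linarith

end Q172.DetK
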