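import Mathlib

/-!
# Positive definite functions which vanish at the nonzero integers: the sampling formula
-/

set_option autoImplicit false

namespace Q172.DetK

open Filter Topology MeasureTheory
open scoped ComplexConjugate

noncomputable section

/-- positive definite functions -/
def PD (K : ℝ → ℂ) : Prop :=
  ∀ (n : ℕ) (u : Fin n → ℝ) (c : Fin n → ℂ),
    0 ≤ (∑ i, ∑ j, c i * conj (c j) * K (u i - u j)).re

lemma PD.fin {K : ℝ → ℂ} (h : PD K) {ι : Type*} [Fintype ι] (u : ι → ℝ) (c : ι → ℂ) :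
    0 ≤ (∑ i, ∑ j, c i * conj (c j) * K (u i - u j)).re := by
  have h1 := h (Fintype.card ι) (fun i => u ((Fintype.equivFin ι).symm i))
    (fun i => c ((Fintype.equivFin ι).symm i))
  have e : ∑ i, ∑ j, c ((Fintype.equivFin ι).symm i) * conj (c ((Fintype.equivFin ι).symm j)) *
      K (u ((Fintype.equivFin ι).symm i) - u ((Fintype.equivFin ι).symm j)) =
      ∑ i, ∑ j, c i * conj (c j) * K (u i - u j) := by
    rw [Equiv.sum_comp (Fintype.equivFin ι).symm (fun i => ∑ j : Fin (Fintype.card ι),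
      c i * conj (c ((Fintype.equivFin ι).symm j)) * K (u i - u ((Fintype.equivFin ι).symm j)))]
    refine Finset.sum_congr rfl fun i _ => ?_
    exact Equiv.sum_comp (Fintype.equivFin ι).symm (fun j => c i * conj (c j) * K (u i - u j))
  rw [e] at h1
  exact h1

/-- the Bessel inequality -/
lemma bessel_aux {K : ℝ → ℂ} (h : PD K) (h0 : K 0 = 1) (hc : ∀ x, K (-x) = conj (K x))
    (hz : ∀ n : ℤ, n ≠ 0 → K n = 0) (S : Finset ℤ) (u w : ℝ) (α : ℂ) (hα : ‖α‖ = 1) :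
    0 ≤ (1 - ∑ n ∈ S, ‖K (u - n)‖ ^ 2) + (1 - ∑ n ∈ S, ‖K (w - n)‖ ^ 2) +
      2 * (α * (K (u - w) - ∑ n ∈ S, K (u - n) * conj (K (w - n)))).re := by
  have hαα : α * conj α = 1 := by
    rw [Complex.mul_conj, Complex.normSq_eq_norm_sq, hα]
    norm_num
  obtain ⟨g, hg⟩ : ∃ g : ℤ → ℂ, g = fun n : ℤ => α * K (u - (n : ℝ)) + K (w - (n : ℝ)) := ⟨_, rfl⟩
  have key := h.fin (ι := Bool ⊕ S) (Sum.elim (fun b => if b then u else w) fun n => (n : ℤ))
    (Sum.elim (fun b => if b then α else 1) fun n => - g n)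
  simp only [Fintype.sum_sum_type, Sum.elim_inl, Sum.elim_inr, Fintype.univ_bool,
    Finset.mem_singleton, Bool.true_eq_false, not_false_eq_true, Finset.sum_insert,
    Finset.sum_singleton, if_true, Bool.false_eq_true, if_false, map_one, one_mul, mul_one,
    sub_self, h0, map_neg] at key
  -- the diagonal block of the integers
  have hdiag : ∀ n ∈ S, ∑ m ∈ S, -g n * -conj (g m) * K ((n : ℝ) - (m : ℝ)) = g n * conj (g n) := by
    intro n hn
    rw [Finset.sum_eq_single n]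
    · rw [sub_self, h0]; ring
    · intro m _ hmn
      have := hz (n - m) (sub_ne_zero.2 (Ne.symm hmn))
      push_cast at this
      rw [this, mul_zero]
    · intro hcon
      exact absurd hn hcon
  have e4 : ∑ x : S, ∑ x_1 : S, -g x * -conj (g x_1) * K (((x : ℤ) : ℝ) - ((x_1 : ℤ) : ℝ)) =
      ∑ n ∈ S, g n * conj (g n) := by
    have : ∀ x : S, ∑ x_1 : S, -g x * -conj (g x_1) * K (((x : ℤ) : ℝ) - ((x_1 : ℤ) : ℝ)) =
        g x * conj (g x) := by
      intro x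
      rw [Finset.sum_coe_sort S (fun m : ℤ => -g x * -conj (g m) * K (((x : ℤ) : ℝ) - (m : ℝ)))]
      exact hdiag x x.2
    simp only [this]
    exact Finset.sum_coe_sort S (fun n : ℤ => g n * conj (g n))
  have e1 : ∑ x : S, α * -conj (g x) * K (u - ((x : ℤ) : ℝ)) =
      ∑ n ∈ S, α * -conj (g n) * K (u - (n : ℝ)) :=
    Finset.sum_coe_sort S (fun n : ℤ => α * -conj (g n) * K (u - (n : ℝ)))
  have e2 : ∑ x : S, -conj (g x) * K (w - ((x : ℤ) : ℝ)) =
      ∑ n ∈ S, -conj (g n) * K (w - (n : ℝ)) :=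
    Finset.sum_coe_sort S (fun n : ℤ => -conj (g n) * K (w - (n : ℝ)))
  have e3 : ∑ x : S, (-g x * conj α * K (((x : ℤ) : ℝ) - u) + -g x * K (((x : ℤ) : ℝ) - w)) =
      ∑ n ∈ S, (-g n * conj α * K ((n : ℝ) - u) + -g n * K ((n : ℝ) - w)) :=
    Finset.sum_coe_sort S (fun n : ℤ => -g n * conj α * K ((n : ℝ) - u) + -g n * K ((n : ℝ) - w))
  rw [Finset.sum_add_distrib, e4, e1, e2, e3] at key
  have hneg : ∀ x y : ℝ, K (x - y) = conj (K (y - x)) := fun x y => by
    rw [← hc, neg_sub]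
  have e5 : ∑ n ∈ S, (-g n * conj α * K ((n : ℝ) - u) + -g n * K ((n : ℝ) - w)) =
      -∑ n ∈ S, g n * conj (g n) := by
    rw [← Finset.sum_neg_distrib]
    refine Finset.sum_congr rfl fun n _ => ?_
    rw [hneg n u, hneg n w]
    nth_rewrite 4 [hg]
    simp only [map_add, map_mul]
    ring
  have e6 : ∑ n ∈ S, α * -conj (g n) * K (u - (n : ℝ)) + ∑ n ∈ S, -conj (g n) * K (w - (n : ℝ)) =
      -∑ n ∈ S, g n * conj (g n) := by
    rw [← Finset.sum_neg_distrib, ← Finset.sum_add_distrib]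
    refine Finset.sum_congr rfl fun n _ => ?_
    have : g n = α * K (u - n) + K (w - n) := by rw [hg]
    nth_rewrite 3 [this]
    ring
  have e7 : ∑ n ∈ S, g n * conj (g n) = ((∑ n ∈ S, ‖K (u - n)‖ ^ 2 + ∑ n ∈ S, ‖K (w - n)‖ ^ 2 : ℝ) : ℂ) +
      (α * ∑ n ∈ S, K (u - n) * conj (K (w - n)) +
        conj (α * ∑ n ∈ S, K (u - n) * conj (K (w - n)))) := by
    push_cast
    simp only [map_mul, map_sum, Complex.conj_conj, Finset.mul_sum]
    rw [← Finset.sum_add_distrib, ← Finset.sum_add_distrib, ← Finset.sum_add_distrib]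
    refine Finset.sum_congr rfl fun n _ => ?_
    rw [← Complex.mul_conj', ← Complex.mul_conj', hg]
    simp only [map_add, map_mul]
    linear_combination (K (u - n) * conj (K (u - n))) * hαα
  have e8 : (∑ n ∈ S, g n * conj (g n)).re = ∑ n ∈ S, ‖K (u - n)‖ ^ 2 + ∑ n ∈ S, ‖K (w - n)‖ ^ 2 +
      2 * (α * ∑ n ∈ S, K (u - n) * conj (K (w - n))).re := by
    rw [e7, Complex.add_re, Complex.ofReal_re, Complex.add_re, Complex.conj_re]
    ring
  have e9 : α * (starRingEnd ℂ) α + α * K (u - w) +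
      ∑ n ∈ S, α * -(starRingEnd ℂ) (g n) * K (u - ↑n) +
      ((starRingEnd ℂ) α * K (w - u) + 1 + ∑ n ∈ S, -(starRingEnd ℂ) (g n) * K (w - ↑n)) +
      (∑ n ∈ S, (-g n * (starRingEnd ℂ) α * K (↑n - u) + -g n * K (↑n - w)) +
          ∑ n ∈ S, g n * (starRingEnd ℂ) (g n)) =
      ((2 : ℝ) : ℂ) + (α * K (u - w) + conj (α * K (u - w))) - ∑ n ∈ S, g n * conj (g n) := by
    rw [hneg w u, map_mul]
    push_cast
    linear_combination hαα + e5 + e6
  rw [e9, Complex.sub_re, Complex.add_re, Complex.ofReal_re, Complex.add_re, Complex.conj_re,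
    e8] at key
  rw [mul_sub, Complex.sub_re]
  linarith

/-- the sampling inequality -/
lemma bessel {K : ℝ → ℂ} (h : PD K) (h0 : K 0 = 1) (hc : ∀ x, K (-x) = conj (K x))
    (hz : ∀ n : ℤ, n ≠ 0 → K n = 0) (S : Finset ℤ) (u w : ℝ) :
    2 * ‖K (u - w) - ∑ n ∈ S, K (u - n) * conj (K (w - n))‖ ≤
      (1 - ∑ n ∈ S, ‖K (u - n)‖ ^ 2) + (1 - ∑ n ∈ S, ‖K (w - n)‖ ^ 2) := by
  obtain ⟨R, hR⟩ : ∃ R : ℂ, R = K (u - w) - ∑ n ∈ S, K (u - n) * conj (K (w - n)) := ⟨_, rfl⟩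
  rw [← hR]
  rcases eq_or_ne R 0 with h1 | h1
  · have h2 := bessel_aux h h0 hc hz S u w 1 (by simp)
    rw [← hR, h1] at h2
    rw [h1]
    simp only [norm_zero, mul_zero, Complex.zero_re, add_zero] at h2 ⊢
    linarith
  · have hn : (0 : ℝ) < ‖R‖ := norm_pos_iff.mpr h1
    have h2 := bessel_aux h h0 hc hz S u w (-(conj R / (‖R‖ : ℂ))) (by
      rw [norm_neg, norm_div, Complex.norm_conj, Complex.norm_real, norm_norm,
        div_self hn.ne'])
    rw [← hR] at h2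
    have e : (-(conj R / (‖R‖ : ℂ)) * R).re = -‖R‖ := by
      have e1 : -(conj R / (‖R‖ : ℂ)) * R = -((‖R‖ : ℝ) : ℂ) := by
        have hn' : (‖R‖ : ℂ) ≠ 0 := by exact_mod_cast hn.ne'
        have e2 : conj R * R = (‖R‖ : ℂ) ^ 2 := by
          rw [mul_comm, Complex.mul_conj']
        field_simp
        rw [e2]
      rw [e1, Complex.neg_re, Complex.ofReal_re]
    rw [e] at h2
    linarith

/-- the sampling formula -/
theorem sampling {K : ℝ → ℂ} (h : PD K) (h0 : K 0 = 1) (hc : ∀ x, K (-x) = conj (K x))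
    (hz : ∀ n : ℤ, n ≠ 0 → K n = 0) (hs : ∀ u : ℝ, HasSum (fun n : ℤ => ‖K (u - n)‖ ^ 2) 1)
    (u w : ℝ) : HasSum (fun n : ℤ => K (u - n) * conj (K (w - n))) (K (u - w)) := by
  have h1 : Tendsto (fun S : Finset ℤ => ((1 - ∑ n ∈ S, ‖K (u - n)‖ ^ 2) +
      (1 - ∑ n ∈ S, ‖K (w - n)‖ ^ 2)) / 2) atTop (𝓝 0) := by
    have h2 := (((hs u).const_sub 1).add ((hs w).const_sub 1)).div_const 2
    simpa using h2
  rw [HasSum, tendsto_iff_norm_sub_tendsto_zero]
  refine squeeze_zero (fun _ => norm_nonneg _) (fun S => ?_) h1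
  have := bessel h h0 hc hz S u w
  rw [norm_sub_rev]
  linarith

end

end Q172.DetK
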